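import Mathlib

set_option autoImplicit false
set_option linter.unusedSectionVars false

/-!
Coset counts of a finite subset of a finite group, and the submodularity of coset entropies.
-/

namespace Pool.Agent.L7h51.SSE

open Finset
open scoped Classical

noncomputable section

variable {G : Type} [Group G] [Fintype G]

/-- number of points of `A` in the left coset `x U` -/
def cnt (A : Finset G) (U : Subgroup G) (x : G) : ℕ := (A.filter fun z => x⁻¹ * z ∈ U).card

lemma cnt_pos (A : Finset G) (U : Subgroup G) {x : G} (hx : x ∈ A) : 0 < cnt A U x := by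
  unfold cnt
  rw [Finset.card_pos]
  exact ⟨x, by simp [hx, U.one_mem]⟩

lemma cnt_mono (A : Finset G) {U U' : Subgroup G} (h : U ≤ U') (x : G) : cnt A U x ≤ cnt A U' x := by
  unfold cnt
  refine Finset.card_le_card fun z hz => ?_
  simp only [Finset.mem_filter] at hz ⊢
  exact ⟨hz.1, h hz.2⟩

lemma cnt_top (A : Finset G) (x : G) : cnt A (⊤ : Subgroup G) x = A.card := by
  unfold cnt; simp

lemma cnt_bot (A : Finset G) {x : G} (hx : x ∈ A) : cnt A (⊥ : Subgroup G) x = 1 := by
  unfold cnt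
  have : (A.filter fun z => x⁻¹ * z ∈ (⊥ : Subgroup G)) = {x} := by
    ext z
    simp only [Finset.mem_filter, Subgroup.mem_bot, Finset.mem_singleton]
    constructor
    · rintro ⟨_, h⟩
      exact (inv_mul_eq_one.1 h).symm
    · rintro rfl; exact ⟨hx, by simp⟩
  rw [this]; simp

lemma cnt_congr (A : Finset G) (U : Subgroup G) {x y : G} (h : x⁻¹ * y ∈ U) :
    cnt A U x = cnt A U y := by
  unfold cnt
  congr 1
  ext z
  simp only [Finset.mem_filter]
  constructor
  · rintro ⟨h1, h2⟩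
    refine ⟨h1, ?_⟩
    have : y⁻¹ * z = (x⁻¹ * y)⁻¹ * (x⁻¹ * z) := by group
    rw [this]; exact U.mul_mem (U.inv_mem h) h2
  · rintro ⟨h1, h2⟩
    refine ⟨h1, ?_⟩
    have : x⁻¹ * z = (x⁻¹ * y) * (y⁻¹ * z) := by group
    rw [this]; exact U.mul_mem h h2

lemma cnt_le (A : Finset G) (U : Subgroup G) (x : G) : cnt A U x ≤ Nat.card U := by
  unfold cnt
  have h : (A.filter fun z => x⁻¹ * z ∈ U).card ≤ (univ.filter fun z : G => z ∈ U).card := by
    refine Finset.card_le_card_of_injOn (fun z => x⁻¹ * z) ?_ ?_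
    · intro z hz
      simp only [Finset.coe_filter, Set.mem_setOf_eq, Finset.mem_univ, true_and] at hz ⊢
      exact hz.2
    · intro z _ w _ h
      simpa using h
  refine h.trans_eq ?_
  rw [Nat.card_eq_fintype_card, Fintype.card_subtype]

/-- averaging over the cosets of `K` -/
lemma sum_avg (A : Finset G) (K : Subgroup G) (F : G → ℝ) :
    ∑ x ∈ A, F x = ∑ x ∈ A, (1 / (cnt A K x : ℝ)) * ∑ y ∈ A.filter (fun y => x⁻¹ * y ∈ K), F y := by
  have h1 : ∀ x ∈ A, (1 / (cnt A K x : ℝ)) * ∑ y ∈ A.filter (fun y => x⁻¹ * y ∈ K), F y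
      = ∑ y ∈ A, if x⁻¹ * y ∈ K then F y * (1 / (cnt A K y : ℝ)) else 0 := by
    intro x _
    rw [Finset.mul_sum, Finset.sum_filter]
    refine Finset.sum_congr rfl fun y _ => ?_
    by_cases h : x⁻¹ * y ∈ K
    · rw [if_pos h, if_pos h, cnt_congr A K h]; ring
    · rw [if_neg h, if_neg h]
  rw [Finset.sum_congr rfl h1, Finset.sum_comm]
  refine Finset.sum_congr rfl fun y hy => ?_
  have h2 : (∑ x ∈ A, if x⁻¹ * y ∈ K then F y * (1 / (cnt A K y : ℝ)) else 0)
      = (∑ x ∈ A, if x⁻¹ * y ∈ K then (1 : ℝ) else 0) * (F y * (1 / (cnt A K y : ℝ))) := by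
    rw [Finset.sum_mul]
    refine Finset.sum_congr rfl fun x _ => ?_
    split_ifs <;> simp
  rw [h2]
  have h3 : (∑ x ∈ A, if x⁻¹ * y ∈ K then (1 : ℝ) else 0) = cnt A K y := by
    unfold cnt
    rw [← Finset.sum_filter, Finset.sum_const, nsmul_eq_mul, mul_one]
    congr 2
    ext x
    simp only [Finset.mem_filter]
    refine and_congr_right fun _ => ?_
    rw [← K.inv_mem_iff]
    simp
  rw [h3]
  have : (cnt A K y : ℝ) ≠ 0 := by
    have := cnt_pos A K hy
    positivity
  field_simp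

/-- the number of cosets of `H` in a coset of `K`, met by `A` -/
lemma sum_inv_le (A : Finset G) {H K : Subgroup G} (hHK : H ≤ K) (x : G) :
    (Nat.card H : ℝ) * ∑ y ∈ A.filter (fun y => x⁻¹ * y ∈ K), (1 / (cnt A H y : ℝ)) ≤ Nat.card K := by
  have hK : (Nat.card K : ℝ) = ∑ t : G, if t ∈ K then (1 : ℝ) else 0 := by
    rw [← Finset.sum_filter, Finset.sum_const, nsmul_eq_mul, mul_one, Nat.card_eq_fintype_card,
      Fintype.card_subtype]
  have h1 : (Nat.card H : ℝ) * ∑ y ∈ A.filter (fun y => x⁻¹ * y ∈ K), (1 / (cnt A H y : ℝ))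
      = ∑ t : G, if t ∈ K then (∑ y ∈ A, if (x * t)⁻¹ * y ∈ H then (1 / (cnt A H y : ℝ)) else 0)
        else 0 := by
    have h2 : ∀ t : G, (if t ∈ K then (∑ y ∈ A, if (x * t)⁻¹ * y ∈ H then (1 / (cnt A H y : ℝ)) else 0)
        else 0) = ∑ y ∈ A, if t ∈ K ∧ (x * t)⁻¹ * y ∈ H then (1 / (cnt A H y : ℝ)) else 0 := by
      intro t
      by_cases ht : t ∈ K <;> simp [ht]
    rw [Finset.sum_congr rfl (fun t _ => h2 t), Finset.sum_comm, Finset.sum_filter, Finset.mul_sum]
    refine Finset.sum_congr rfl fun y _ => ?_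
    by_cases hy : x⁻¹ * y ∈ K
    · rw [if_pos hy]
      rw [← Finset.sum_filter, Finset.sum_const, nsmul_eq_mul]
      congr 2
      rw [Nat.card_eq_fintype_card, Fintype.card_subtype]
      refine Finset.card_bij (fun h _ => x⁻¹ * y * h⁻¹) ?_ ?_ ?_
      · intro h hh
        simp only [Finset.mem_filter, Finset.mem_univ, true_and] at hh ⊢
        refine ⟨K.mul_mem hy (K.inv_mem (hHK hh)), ?_⟩
        have : (x * (x⁻¹ * y * h⁻¹))⁻¹ * y = h := by group
        rw [this]; exact hh
      · intro h _ h' _ e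
        simpa using e
      · intro t ht
        simp only [Finset.mem_filter, Finset.mem_univ, true_and] at ht
        refine ⟨(x * t)⁻¹ * y, by simpa using ht.2, by group⟩
    · rw [if_neg hy, mul_zero]
      symm
      refine Finset.sum_eq_zero fun t _ => ?_
      rw [if_neg]
      rintro ⟨ht, h⟩
      apply hy
      have : x⁻¹ * y = t * ((x * t)⁻¹ * y) := by group
      rw [this]
      exact K.mul_mem ht (hHK h)
  rw [h1, hK]
  refine Finset.sum_le_sum fun t _ => ?_
  split_ifs with ht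
  · -- sum over a coset of H
    by_cases hne : ∃ y ∈ A, (x * t)⁻¹ * y ∈ H
    · obtain ⟨y0, hy0, hy0H⟩ := hne
      have : ∀ y ∈ A, (if (x * t)⁻¹ * y ∈ H then (1 / (cnt A H y : ℝ)) else 0)
          = if y0⁻¹ * y ∈ H then (1 / (cnt A H y0 : ℝ)) else 0 := by
        intro y _
        have hiff : (x * t)⁻¹ * y ∈ H ↔ y0⁻¹ * y ∈ H := by
          constructor
          · intro h
            have : y0⁻¹ * y = ((x * t)⁻¹ * y0)⁻¹ * ((x * t)⁻¹ * y) := by group
            rw [this]; exact H.mul_mem (H.inv_mem hy0H) h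
          · intro h
            have : (x * t)⁻¹ * y = ((x * t)⁻¹ * y0) * (y0⁻¹ * y) := by group
            rw [this]; exact H.mul_mem hy0H h
        by_cases h : y0⁻¹ * y ∈ H
        · rw [if_pos (hiff.2 h), if_pos h, cnt_congr A H h]
        · rw [if_neg (fun h' => h (hiff.1 h')), if_neg h]
      rw [Finset.sum_congr rfl this, ← Finset.sum_filter, Finset.sum_const, nsmul_eq_mul]
      have hc : ((A.filter fun y => y0⁻¹ * y ∈ H).card : ℝ) = cnt A H y0 := rfl
      rw [hc]
      have : (cnt A H y0 : ℝ) ≠ 0 := by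
        have := cnt_pos A H hy0
        positivity
      field_simp
      exact le_refl _
    · push Not at hne
      rw [Finset.sum_eq_zero]
      · exact zero_le_one
      · intro y hy
        rw [if_neg (hne y hy)]
  · exact le_refl _

/-- counting form of submodularity -/
lemma sum_ratio_le (A : Finset G) (U D : Subgroup G) :
    ∑ x ∈ A, ((cnt A U x : ℝ) * cnt A D x) / (cnt A (U ⊔ D) x * cnt A (U ⊓ D) x) ≤ A.card := by
  set S := U ⊔ D with hS
  set I := U ⊓ D with hI
  have hUS : U ≤ S := le_sup_left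
  have hDS : D ≤ S := le_sup_right
  -- expand
  have h1 : ∀ x ∈ A, ((cnt A U x : ℝ) * cnt A D x) / (cnt A S x * cnt A I x)
      = ∑ y ∈ A, ∑ z ∈ A, if x⁻¹ * y ∈ U ∧ x⁻¹ * z ∈ D then 1 / ((cnt A S x : ℝ) * cnt A I x) else 0 := by
    intro x _
    have e1 : (cnt A U x : ℝ) = ∑ y ∈ A, if x⁻¹ * y ∈ U then (1 : ℝ) else 0 := by
      unfold cnt; rw [← Finset.sum_filter, Finset.sum_const, nsmul_eq_mul, mul_one]
    have e2 : (cnt A D x : ℝ) = ∑ y ∈ A, if x⁻¹ * y ∈ D then (1 : ℝ) else 0 := by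
      unfold cnt; rw [← Finset.sum_filter, Finset.sum_const, nsmul_eq_mul, mul_one]
    rw [e1, e2, Finset.sum_mul_sum, div_eq_mul_one_div, Finset.sum_mul]
    refine Finset.sum_congr rfl fun y _ => ?_
    rw [Finset.sum_mul]
    refine Finset.sum_congr rfl fun z _ => ?_
    by_cases hy : x⁻¹ * y ∈ U <;> by_cases hz : x⁻¹ * z ∈ D <;> simp [hy, hz]
  rw [Finset.sum_congr rfl h1, Finset.sum_comm]
  have h2 : ∀ y ∈ A, ∑ x ∈ A, ∑ z ∈ A,
      (if x⁻¹ * y ∈ U ∧ x⁻¹ * z ∈ D then 1 / ((cnt A S x : ℝ) * cnt A I x) else 0) ≤ 1 := by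
    intro y hy
    rw [Finset.sum_comm]
    have h3 : ∀ z ∈ A, ∑ x ∈ A,
        (if x⁻¹ * y ∈ U ∧ x⁻¹ * z ∈ D then 1 / ((cnt A S x : ℝ) * cnt A I x) else 0)
        ≤ if y⁻¹ * z ∈ S then 1 / (cnt A S y : ℝ) else 0 := by
      intro z hz
      by_cases hne : ∃ x0 ∈ A, x0⁻¹ * y ∈ U ∧ x0⁻¹ * z ∈ D
      · obtain ⟨x0, hx0, hx0y, hx0z⟩ := hne
        have hyz : y⁻¹ * z ∈ S := by
          have : y⁻¹ * z = (x0⁻¹ * y)⁻¹ * (x0⁻¹ * z) := by group
          rw [this]; exact S.mul_mem (S.inv_mem (hUS hx0y)) (hDS hx0z)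
        rw [if_pos hyz]
        have h4 : ∀ x ∈ A, (if x⁻¹ * y ∈ U ∧ x⁻¹ * z ∈ D then 1 / ((cnt A S x : ℝ) * cnt A I x) else 0)
            = if x0⁻¹ * x ∈ I then 1 / ((cnt A S y : ℝ) * cnt A I x0) else 0 := by
          intro x _
          have hiff : (x⁻¹ * y ∈ U ∧ x⁻¹ * z ∈ D) ↔ x0⁻¹ * x ∈ I := by
            rw [hI, Subgroup.mem_inf]
            constructor
            · rintro ⟨a, b⟩
              constructor
              · have : x0⁻¹ * x = (x0⁻¹ * y) * (x⁻¹ * y)⁻¹ := by group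
                rw [this]; exact U.mul_mem hx0y (U.inv_mem a)
              · have : x0⁻¹ * x = (x0⁻¹ * z) * (x⁻¹ * z)⁻¹ := by group
                rw [this]; exact D.mul_mem hx0z (D.inv_mem b)
            · rintro ⟨a, b⟩
              constructor
              · have : x⁻¹ * y = (x0⁻¹ * x)⁻¹ * (x0⁻¹ * y) := by group
                rw [this]; exact U.mul_mem (U.inv_mem a) hx0y
              · have : x⁻¹ * z = (x0⁻¹ * x)⁻¹ * (x0⁻¹ * z) := by group
                rw [this]; exact D.mul_mem (D.inv_mem b) hx0z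
          by_cases h : x0⁻¹ * x ∈ I
          · rw [if_pos (hiff.2 h), if_pos h, ← cnt_congr A I h]
            have : cnt A S x = cnt A S y := by
              apply cnt_congr
              exact hUS (hiff.2 h).1
            rw [this]
          · rw [if_neg (fun h' => h (hiff.1 h')), if_neg h]
        rw [Finset.sum_congr rfl h4, ← Finset.sum_filter, Finset.sum_const, nsmul_eq_mul]
        have hc : ((A.filter fun x => x0⁻¹ * x ∈ I).card : ℝ) = cnt A I x0 := rfl
        rw [hc]
        have c1 : (cnt A I x0 : ℝ) ≠ 0 := by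
          have := cnt_pos A I hx0
          positivity
        have c2 : (cnt A S y : ℝ) ≠ 0 := by
          have := cnt_pos A S hy
          positivity
        field_simp
        exact le_refl _
      · push Not at hne
        rw [Finset.sum_eq_zero]
        · split_ifs <;> positivity
        · intro x hx
          rw [if_neg]
          rintro ⟨a, b⟩
          exact hne x hx a b
    refine (Finset.sum_le_sum h3).trans ?_
    rw [← Finset.sum_filter, Finset.sum_const, nsmul_eq_mul]
    have hc : ((A.filter fun z => y⁻¹ * z ∈ S).card : ℝ) = cnt A S y := rfl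
    rw [hc]
    have c2 : (cnt A S y : ℝ) ≠ 0 := by
      have := cnt_pos A S hy
      positivity
    rw [mul_one_div, div_self c2]
  calc _ ≤ ∑ y ∈ A, (1 : ℝ) := Finset.sum_le_sum h2
    _ = A.card := by simp

/-- submodularity of the coset entropies -/
lemma supermod (A : Finset G) (U D : Subgroup G) :
    ∑ x ∈ A, (Real.log (cnt A U x) + Real.log (cnt A D x)) ≤
      ∑ x ∈ A, (Real.log (cnt A (U ⊔ D) x) + Real.log (cnt A (U ⊓ D) x)) := by
  rw [← sub_nonpos, ← Finset.sum_sub_distrib]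
  have h1 : ∀ x ∈ A, Real.log (cnt A U x) + Real.log (cnt A D x) -
      (Real.log (cnt A (U ⊔ D) x) + Real.log (cnt A (U ⊓ D) x)) ≤
      ((cnt A U x : ℝ) * cnt A D x) / (cnt A (U ⊔ D) x * cnt A (U ⊓ D) x) - 1 := by
    intro x hx
    have a : (0:ℝ) < cnt A U x := by exact_mod_cast cnt_pos A U hx
    have b : (0:ℝ) < cnt A D x := by exact_mod_cast cnt_pos A D hx
    have c : (0:ℝ) < cnt A (U ⊔ D) x := by exact_mod_cast cnt_pos A _ hx
    have d : (0:ℝ) < cnt A (U ⊓ D) x := by exact_mod_cast cnt_pos A _ hx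
    rw [← Real.log_mul a.ne' b.ne', ← Real.log_mul c.ne' d.ne',
      ← Real.log_div (mul_pos a b).ne' (mul_pos c d).ne']
    exact Real.log_le_sub_one_of_pos (div_pos (mul_pos a b) (mul_pos c d))
  refine (Finset.sum_le_sum h1).trans ?_
  rw [Finset.sum_sub_distrib]
  have := sum_ratio_le A U D
  simp only [Finset.sum_const, nsmul_eq_mul, mul_one]
  linarith

end

end Pool.Agent.L7h51.SSE
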