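import Pool.Agent.L7h51.SSE.Weights

set_option autoImplicit false
set_option linter.unusedSectionVars false
set_option maxHeartbeats 4000000

/-! Subgroups minimise the expansion among all sets. -/

namespace Pool.Agent.L7h51.SSE

open Finset
open scoped Classical

noncomputable section

variable {G : Type} [Group G] [Fintype G]

lemma wexp_carrier_eq (μ : G → ℝ) (W : Subgroup G) :
    wexp μ (carrier W) = ∑ s ∈ univ.filter (fun s => s ∉ W), μ s := by
  have hW0 : (0 : ℝ) < (carrier W).card := by exact_mod_cast (carrier_nonempty W).card_pos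
  unfold wexp
  rw [div_eq_iff hW0.ne', Finset.sum_mul, Finset.sum_filter]
  refine Finset.sum_congr rfl fun s _ => ?_
  by_cases hs : s ∈ W
  · rw [if_neg (by simpa using hs)]
    have : ((carrier W).filter fun x => x * s ∉ carrier W) = ∅ := by
      rw [Finset.filter_eq_empty_iff]
      intro x hx
      simp only [carrier, Finset.mem_filter, Finset.mem_univ, true_and, not_not] at hx ⊢
      exact W.mul_mem hx hs
    rw [this]; simp
  · rw [if_pos hs]
    have : ((carrier W).filter fun x => x * s ∉ carrier W) = carrier W := by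
      rw [Finset.filter_eq_self]
      intro x hx
      simp only [carrier, Finset.mem_filter, Finset.mem_univ, true_and] at hx ⊢
      intro hc
      apply hs
      have := W.mul_mem (W.inv_mem hx) hc
      simpa using this
    rw [this]

lemma lsize_carrier (W : Subgroup G) : lsize (carrier W) = Real.log W.index := by
  unfold lsize
  rw [card_carrier]
  congr 1
  have h1 : (Nat.card W : ℝ) * W.index = Nat.card G := by exact_mod_cast W.card_mul_index
  have h2 := card_pos' W
  rw [div_eq_iff h2.ne', ← Nat.card_eq_fintype_card, ← h1, mul_comm]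

lemma lsize_nonneg (A : Finset G) (hA : A.Nonempty) : 0 ≤ lsize A := by
  have hA0 : (0 : ℝ) < A.card := by exact_mod_cast hA.card_pos
  unfold lsize
  apply Real.log_nonneg
  rw [le_div_iff₀ hA0, one_mul]
  exact_mod_cast Finset.card_le_univ A

lemma lsize_pos (A : Finset G) (hA : A.Nonempty) (hA' : A ≠ univ) : 0 < lsize A := by
  have hA0 : (0 : ℝ) < A.card := by exact_mod_cast hA.card_pos
  unfold lsize
  apply Real.log_pos
  rw [lt_div_iff₀ hA0, one_mul]
  have : A.card < Fintype.card G := by
    rw [← Finset.card_univ]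
    exact Finset.card_lt_card (Finset.ssubset_univ_iff.2 hA')
  exact_mod_cast this

lemma wexp_nonneg (μ : G → ℝ) (hμ : ∀ s, s ≠ 1 → 0 ≤ μ s) (A : Finset G) : 0 ≤ wexp μ A := by
  unfold wexp
  refine div_nonneg (Finset.sum_nonneg fun s _ => ?_) (Nat.cast_nonneg _)
  by_cases hs : s = 1
  · subst hs
    have : (A.filter fun x => x * 1 ∉ A) = ∅ := by
      rw [Finset.filter_eq_empty_iff]
      intro x hx; simpa using hx
    rw [this]; simp
  · exact mul_nonneg (hμ s hs) (Nat.cast_nonneg _)

lemma adm_nonneg {𝓕 : Set (Subgroup G)} {μ : G → ℝ} (h : Admissible 𝓕 μ) :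
    ∀ s, s ≠ 1 → 0 ≤ μ s := by
  obtain ⟨ι, κ, _, _, D, c, C, e, hD, hC, hμ⟩ := h
  intro s hs
  rw [hμ s hs]
  refine add_nonneg (Finset.sum_nonneg fun i _ => mul_nonneg (hD i).2 ?_)
    (Finset.sum_nonneg fun k _ => mul_nonneg (hC k).2.1 ?_)
  · split_ifs <;> positivity
  · split_ifs <;> positivity

/-- (a) -/
lemma part1 {𝓕 : Set (Subgroup G)} (h𝓕 : PermLattice 𝓕) {μ : G → ℝ} (h : Admissible 𝓕 μ)
    (lam : ℝ) (hlam : 0 ≤ lam) :
    ∃ W ∈ 𝓕, ∀ A : Finset G, A.Nonempty →
      wexp μ (carrier W) - lam * lsize (carrier W) ≤ wexp μ A - lam * lsize A := by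
  obtain ⟨ι, κ, _, _, D, c, C, e, hD, hC, hμ⟩ := h
  choose C' p hg using fun k => exists_genTest (C k) (hC k).2.2.1 (hC k).2.2.2
  obtain ⟨W, hW, hmin⟩ := Finset.exists_min_image (univ.filter fun W : Subgroup G => W ∈ 𝓕)
    (fun W => wexp μ (carrier W) - lam * lsize (carrier W))
    ⟨⊥, by simpa using h𝓕.bot⟩
  simp only [Finset.mem_filter, Finset.mem_univ, true_and] at hW hmin
  refine ⟨W, hW, fun A hA => ?_⟩
  have hl : ∀ U : Subgroup G, lsize (carrier U) = lidx U := by
    intro U
    unfold lsize lidx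
    rw [card_carrier, Real.log_div (by exact_mod_cast (Fintype.card_pos (α := G)).ne')
      (card_pos' U).ne', Nat.card_eq_fintype_card (α := G)]
  have h1 := greedy D c C C' e h𝓕 (fun i => (hD i).1) (fun i => (hD i).2) p (fun k => (hC k).1) hg
    (fun k => (hC k).2.1) lam hlam (wexp μ (carrier W) - lam * lsize (carrier W)) (by
      intro U hU
      have := hmin U hU
      rw [wexp_carrier D c C C' e p hg μ hμ U, hl U] at this
      exact this) A hA
  rw [wexp_eq D c C C' e p hg μ hμ A hA]
  unfold lsize at h1 ⊢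
  rw [Nat.card_eq_fintype_card] at h1
  exact h1

/-- (b) -/
lemma part2 {𝓕 : Set (Subgroup G)} (h𝓕 : PermLattice 𝓕) {μ : G → ℝ} (h : Admissible 𝓕 μ) (c : ℝ) :
    (∀ A : Finset G, A.Nonempty → c * lsize A ≤ wexp μ A) ↔
      ∀ W ∈ 𝓕, c * lsize (carrier W) ≤ wexp μ (carrier W) := by
  constructor
  · intro h W _
    exact h (carrier W) (carrier_nonempty W)
  · intro h' A hA
    rcases lt_or_ge c 0 with hc | hc
    · exact (mul_nonpos_of_nonpos_of_nonneg hc.le (lsize_nonneg A hA)).trans
        (wexp_nonneg μ (adm_nonneg h) A)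
    · obtain ⟨W, hW𝓕, hW⟩ := part1 h𝓕 h c hc
      have h1 := hW A hA
      have h2 := h' W hW𝓕
      linarith

lemma carrier_ne_univ {W : Subgroup G} (h : W ≠ ⊤) : carrier W ≠ univ := by
  intro h'
  apply h
  rw [Subgroup.eq_top_iff']
  intro x
  have : x ∈ carrier W := by rw [h']; exact Finset.mem_univ x
  simpa [carrier] using this

/-- (c) -/
lemma part3 {𝓕 : Set (Subgroup G)} (h𝓕 : PermLattice 𝓕) {μ : G → ℝ} (h : Admissible 𝓕 μ)
    (hG : Nontrivial G) :
    ∃ W ∈ 𝓕, W ≠ ⊤ ∧ ∀ A : Finset G, A.Nonempty → A ≠ univ →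
      wexp μ (carrier W) / lsize (carrier W) ≤ wexp μ A / lsize A := by
  have hne : (Finset.univ.filter fun W : Subgroup G => W ∈ 𝓕 ∧ W ≠ ⊤).Nonempty := by
    refine ⟨⊥, ?_⟩
    simp only [Finset.mem_filter, Finset.mem_univ, true_and]
    exact ⟨h𝓕.bot, bot_ne_top⟩
  obtain ⟨W, hW, hmin⟩ := Finset.exists_min_image _ (fun W : Subgroup G =>
    wexp μ (carrier W) / lsize (carrier W)) hne
  simp only [Finset.mem_filter, Finset.mem_univ, true_and] at hW hmin
  refine ⟨W, hW.1, hW.2, fun A hA hA' => ?_⟩
  rw [le_div_iff₀ (lsize_pos A hA hA')]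
  refine (part2 h𝓕 h (wexp μ (carrier W) / lsize (carrier W))).mpr (fun U hU => ?_) A hA
  by_cases hUt : U = ⊤
  · subst hUt
    have : lsize (carrier (⊤ : Subgroup G)) = 0 := by rw [lsize_carrier]; simp
    rw [this, mul_zero]
    exact wexp_nonneg μ (adm_nonneg h) _
  · have := hmin U ⟨hU, hUt⟩
    rwa [le_div_iff₀ (lsize_pos _ (carrier_nonempty U) (carrier_ne_univ hUt))] at this

/-! ### Lattices -/

lemma card_sup_mul_card_inf (U D : Subgroup G) [D.Normal] :
    Nat.card (U ⊔ D : Subgroup G) * Nat.card (U ⊓ D : Subgroup G) = Nat.card U * Nat.card D := by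
  have h1 : Nat.card (U ⊔ D : Subgroup G) = Nat.card D * D.relIndex U := by
    rw [← Subgroup.relIndex_bot_left, ← Subgroup.relIndex_mul_relIndex ⊥ D (U ⊔ D) bot_le
      le_sup_right, Subgroup.relIndex_bot_left, Subgroup.relIndex_sup_right]
  have h2 : Nat.card U = Nat.card (U ⊓ D : Subgroup G) * D.relIndex U := by
    rw [← Subgroup.relIndex_bot_left, ← Subgroup.relIndex_mul_relIndex ⊥ (U ⊓ D) U bot_le
      inf_le_left, Subgroup.relIndex_bot_left, Subgroup.inf_relIndex_left]
  rw [h1, h2]; ring

lemma permLattice_normal : PermLattice {N : Subgroup G | N.Normal} where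
  bot := by
    show (⊥ : Subgroup G).Normal
    infer_instance
  top := by
    show (⊤ : Subgroup G).Normal
    infer_instance
  inf U hU D hD := by
    have : U.Normal := hU
    have : D.Normal := hD
    show (U ⊓ D).Normal
    infer_instance
  sup U hU D hD := by
    have : U.Normal := hU
    have : D.Normal := hD
    show (U ⊔ D).Normal
    infer_instance
  card U hU D hD := by
    have : D.Normal := hD
    exact card_sup_mul_card_inf U D

/-! ### Weights -/

/-- Weights constant on the generators of the cyclic subgroups. -/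
lemma admissible_gen (hG : ∀ N : Subgroup G, N.Normal) (μ : G → ℝ) (hμ : ∀ s, s ≠ 1 → 0 ≤ μ s)
    (hcl : ∀ s t : G, Subgroup.zpowers s = Subgroup.zpowers t → μ s = μ t)
    (hpp : ∀ s : G, s ≠ 1 → μ s ≠ 0 → IsPrimePow (orderOf s)) :
    Admissible {N : Subgroup G | N.Normal} μ := by
  let κ := {C : Subgroup G // IsCyclic C ∧ IsPrimePow (Nat.card C)}
  let e : κ → ℝ := fun C => ∑ t : G, if Subgroup.zpowers t = C.1 then μ t else 0
  refine ⟨PEmpty, κ, inferInstance, inferInstance, fun i => i.elim, fun i => i.elim,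
    fun C => C.1, e, fun i => i.elim, ?_, ?_⟩
  · intro C
    refine ⟨hG _, Finset.sum_nonneg fun t _ => ?_, C.2.1, C.2.2⟩
    split_ifs with h
    · apply hμ
      rintro rfl
      have h1 := C.2.2
      rw [← h, Subgroup.zpowers_one_eq_bot, Subgroup.card_bot] at h1
      exact not_isPrimePow_one h1
    · exact le_refl _
  · intro s hs
    rw [Finset.univ_eq_empty, Finset.sum_empty, zero_add]
    by_cases hsp : IsPrimePow (orderOf s)
    · have hC : IsCyclic (Subgroup.zpowers s) ∧ IsPrimePow (Nat.card (Subgroup.zpowers s)) := by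
        refine ⟨inferInstance, ?_⟩
        rwa [Nat.card_zpowers]
      rw [Finset.sum_eq_single (⟨Subgroup.zpowers s, hC⟩ : κ)]
      · simp only [if_true, e]
        have h1 : ∑ t : G, (if Subgroup.zpowers t = Subgroup.zpowers s then μ t else 0) =
            (Nat.card {t : G // Subgroup.zpowers t = Subgroup.zpowers s} : ℝ) * μ s := by
          rw [Nat.card_eq_fintype_card, Fintype.card_subtype, ← nsmul_eq_mul, ← Finset.sum_const,
            ← Finset.sum_filter]
          refine Finset.sum_congr rfl fun t ht => ?_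
          exact hcl _ _ (by simpa using ht)
        rw [h1]
        have h2 : (0 : ℝ) < (Nat.card {t : G // Subgroup.zpowers t = Subgroup.zpowers s} : ℝ) := by
          have : Nonempty {t : G // Subgroup.zpowers t = Subgroup.zpowers s} := ⟨⟨s, rfl⟩⟩
          exact_mod_cast Nat.card_pos
        field_simp
      · intro C _ hCs
        rw [if_neg, mul_zero]
        intro h
        exact hCs (Subtype.ext h.symm)
      · intro h
        exact absurd (Finset.mem_univ _) h
    · have h0 : μ s = 0 := by
        by_contra h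
        exact hsp (hpp s hs h)
      rw [h0]
      symm
      apply Finset.sum_eq_zero
      intro C _
      rw [if_neg, mul_zero]
      intro h
      apply hsp
      rw [← Nat.card_zpowers, h]
      exact C.2.2

lemma gen_eq_or_inv {s t : G} (h : Subgroup.zpowers s = Subgroup.zpowers t) (hs : orderOf s ≤ 4) :
    t = s ∨ t = s⁻¹ := by
  have hord : orderOf t = orderOf s := by rw [← Nat.card_zpowers, ← h, Nat.card_zpowers]
  have ht : t ∈ Subgroup.zpowers s := by rw [h]; exact Subgroup.mem_zpowers t
  obtain ⟨k, hk⟩ := (isOfFinOrder_of_finite s).mem_zpowers_iff_mem_range_orderOf.1 ht |> (by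
    intro h
    simpa [Finset.mem_image] using h : _ → ∃ k : ℕ, k < orderOf s ∧ s ^ k = t)
  obtain ⟨hk1, hk2⟩ := hk
  have hk4 : k < 4 := by omega
  have hinv : ∀ m : ℕ, orderOf s = m + 1 → s ^ m = s⁻¹ := by
    intro m hm
    rw [eq_inv_iff_mul_eq_one, ← pow_succ, ← hm]
    exact pow_orderOf_eq_one s
  interval_cases k
  · left
    have h1 : t = 1 := by simpa using hk2.symm
    have h2 : orderOf s = 1 := by rw [← hord, h1, orderOf_one]
    rw [h1, orderOf_eq_one_iff.1 h2]
  · left
    simpa using hk2.symm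
  · have h3 : orderOf s = 3 ∨ orderOf s = 4 := by omega
    rcases h3 with h3 | h3
    · right
      rw [← hk2]; exact hinv 2 h3
    · exfalso
      have h4 : orderOf (s ^ 2) = 2 := by
        rw [orderOf_pow, h3]
        rfl
      rw [hk2, hord, h3] at h4
      omega
  · right
    rw [← hk2]; exact hinv 3 (by omega)

/-- Symmetric weights on groups whose subgroups are normal and whose elements have orders at
most 4. -/
lemma admissible_symm (hG : ∀ N : Subgroup G, N.Normal) (h4 : ∀ s : G, orderOf s ≤ 4) (μ : G → ℝ)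
    (hμ : ∀ s, s ≠ 1 → 0 ≤ μ s) (hs : ∀ s, μ s⁻¹ = μ s) :
    Admissible {N : Subgroup G | N.Normal} μ := by
  refine admissible_gen hG μ hμ ?_ ?_
  · intro s t h
    rcases gen_eq_or_inv h (h4 s) with h | h
    · rw [h]
    · rw [h, hs]
  · intro s hs1 _
    have h1 : orderOf s ≠ 1 := fun h => hs1 (orderOf_eq_one_iff.1 h)
    have h2 : 0 < orderOf s := orderOf_pos s
    have h3 := h4 s
    have h5 : orderOf s = 2 ∨ orderOf s = 3 ∨ orderOf s = 4 := by omega
    rcases h5 with h | h | h
    · rw [h]; exact Nat.prime_two.isPrimePow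
    · rw [h]; exact Nat.prime_three.isPrimePow
    · rw [h]; exact ⟨2, 2, Nat.prime_two.prime, by norm_num, by norm_num⟩

/-! ### The converse -/

/-- the weight of an element and its inverse -/
def pairWeight (g : G) : G → ℝ := fun s => (if s = g then 1 else 0) + (if s = g⁻¹ then 1 else 0)

lemma pairWeight_nonneg (g s : G) : 0 ≤ pairWeight g s := by
  unfold pairWeight
  split_ifs <;> norm_num

lemma pairWeight_inv (g s : G) : pairWeight g s⁻¹ = pairWeight g s := by
  unfold pairWeight
  rw [inv_inj, add_comm]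
  congr 1
  simp only [inv_eq_iff_eq_inv]

lemma wexp_pair (g : G) (h : 5 ≤ orderOf g) : wexp (pairWeight g) {1, g} = 1 := by
  have hpow : ∀ k, 1 ≤ k → k < 5 → g ^ k ≠ 1 := by
    intro k hk1 hk5 hk
    have := Nat.le_of_dvd (by omega) (orderOf_dvd_of_pow_eq_one hk)
    omega
  have hg1 : g ≠ 1 := by simpa using hpow 1 le_rfl (by norm_num)
  have hgg : g * g ≠ 1 := by
    have := hpow 2 (by norm_num) (by norm_num)
    rwa [pow_two] at this
  have hginv : g⁻¹ ≠ g := by
    intro h'
    apply hgg
    nth_rewrite 1 [← h']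
    simp
  have hcard : (({1, g} : Finset G).card : ℝ) = 2 := by
    rw [Finset.card_pair (Ne.symm hg1)]; norm_num
  unfold wexp pairWeight
  rw [hcard]
  simp only [add_mul, Finset.sum_add_distrib, ite_mul, one_mul, zero_mul, Finset.sum_ite_eq',
    Finset.mem_univ, if_true]
  have e1 : (({1, g} : Finset G).filter fun x => x * g ∉ ({1, g} : Finset G)) = {g} := by
    ext x
    simp only [Finset.mem_filter, Finset.mem_insert, Finset.mem_singleton]
    constructor
    · rintro ⟨rfl | rfl, h2⟩
      · simp at h2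
      · rfl
    · rintro rfl
      refine ⟨Or.inr rfl, ?_⟩
      rintro (h' | h')
      · exact hgg h'
      · exact hg1 (by simpa using h')
  have e2 : (({1, g} : Finset G).filter fun x => x * g⁻¹ ∉ ({1, g} : Finset G)) = {1} := by
    ext x
    simp only [Finset.mem_filter, Finset.mem_insert, Finset.mem_singleton]
    constructor
    · rintro ⟨rfl | rfl, h2⟩
      · rfl
      · simp at h2
    · rintro rfl
      refine ⟨Or.inl rfl, ?_⟩
      rintro (h' | h')
      · exact hg1 (by simpa using h')
      · exact hginv (by simpa using h')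
  rw [e1, e2]
  simp

/-- No subgroup is optimal for the weight of an element of order at least 5 and its inverse. -/
lemma pair_not (g : G) (h : 5 ≤ orderOf g) :
    ∃ lam : ℝ, 0 ≤ lam ∧ ∃ A : Finset G, A.Nonempty ∧ ∀ W : Subgroup G,
      wexp (pairWeight g) A - lam * lsize A <
        wexp (pairWeight g) (carrier W) - lam * lsize (carrier W) := by
  have hm5 : (5 : ℝ) ≤ orderOf g := by exact_mod_cast h
  have hlm : Real.log 4 < Real.log (orderOf g) := Real.log_lt_log (by norm_num) (by linarith)
  have hl4 : Real.log 4 = 2 * Real.log 2 := by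
    rw [show (4 : ℝ) = 2 ^ 2 by norm_num, Real.log_pow]; norm_num
  have hl2 : 0 < Real.log 2 := Real.log_pos (by norm_num)
  have hlm0 : 0 < Real.log (orderOf g) := by linarith
  refine ⟨2 / Real.log (orderOf g), by positivity, {1, g}, by simp, fun W => ?_⟩
  have hg1 : (1 : G) ≠ g := by
    rintro rfl
    rw [orderOf_one] at h
    omega
  have hcardA : (({1, g} : Finset G).card : ℝ) = 2 := by
    rw [Finset.card_pair hg1]; norm_num
  have hG0 : (0 : ℝ) < Fintype.card G := by exact_mod_cast Fintype.card_pos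
  rw [wexp_pair g h]
  unfold lsize
  rw [hcardA, card_carrier, Real.log_div hG0.ne' (by norm_num), Real.log_div hG0.ne' (card_pos' W).ne']
  rw [wexp_carrier_eq]
  have key : 2 / Real.log (orderOf g) * Real.log 2 < 1 := by
    rw [div_mul_eq_mul_div, div_lt_one hlm0]
    linarith
  by_cases hgW : g ∈ W
  · have hsum : 0 ≤ ∑ s ∈ univ.filter (fun s => s ∉ W), pairWeight g s :=
      Finset.sum_nonneg fun s _ => pairWeight_nonneg g s
    have hle : (orderOf g : ℝ) ≤ Nat.card W := by
      rw [← Nat.card_zpowers]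
      have : Subgroup.zpowers g ≤ W := by rwa [Subgroup.zpowers_le]
      exact_mod_cast Subgroup.card_le_of_le this
    have hlog : Real.log (orderOf g) ≤ Real.log (Nat.card W) := Real.log_le_log (by linarith) hle
    have h1 : 2 ≤ 2 / Real.log (orderOf g) * Real.log (Nat.card W) := by
      rw [div_mul_eq_mul_div, le_div_iff₀ hlm0]
      linarith
    nlinarith
  · have hsum : ∑ s ∈ univ.filter (fun s => s ∉ W), pairWeight g s = 2 := by
      unfold pairWeight
      rw [Finset.sum_add_distrib, Finset.sum_ite_eq', Finset.sum_ite_eq']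
      rw [if_pos (by simpa using hgW), if_pos (by simpa using hgW)]
      norm_num
    rw [hsum]
    have hlog : 0 ≤ Real.log (Nat.card W) := Real.log_nonneg (by
      have : 0 < Nat.card W := Nat.card_pos
      exact_mod_cast this)
    have h1 : 0 ≤ 2 / Real.log (orderOf g) * Real.log (Nat.card W) := by positivity
    nlinarith

end

end Pool.Agent.L7h51.SSE
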