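import Pool.Agent.L7h51.SSE.Step

set_option autoImplicit false
set_option linter.unusedSectionVars false
set_option maxHeartbeats 4000000

/-! The greedy argument. -/

namespace Pool.Agent.L7h51.SSE

open Finset
open scoped Classical

noncomputable section

variable {G : Type} [Group G] [Fintype G]

/-- A lattice of pairwise permuting subgroups. -/
structure PermLattice (𝓕 : Set (Subgroup G)) : Prop where
  bot : ⊥ ∈ 𝓕
  top : ⊤ ∈ 𝓕
  inf : ∀ U ∈ 𝓕, ∀ D ∈ 𝓕, U ⊓ D ∈ 𝓕
  sup : ∀ U ∈ 𝓕, ∀ D ∈ 𝓕, U ⊔ D ∈ 𝓕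
  card : ∀ U ∈ 𝓕, ∀ D ∈ 𝓕, Nat.card (U ⊔ D : Subgroup G) * Nat.card (U ⊓ D : Subgroup G) =
    Nat.card U * Nat.card D

/-- `C'` is the only maximal subgroup of `C`, and the indices of the subgroups are powers
of `p` -/
structure GenTest (C C' : Subgroup G) (p : ℕ) : Prop where
  two_le : 2 ≤ p
  le : C' ≤ C
  card : Nat.card C = p * Nat.card C'
  sub : ∀ H : Subgroup G, H ≤ C → H ≠ C → H ≤ C' ∧ ∃ j : ℕ, 1 ≤ j ∧ Nat.card C = p ^ j * Nat.card H

/-- expected number of the `d ∈ D \ H` with `x d ∈ A` -/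
def ret (A : Finset G) (D H : Subgroup G) : ℝ :=
  (∑ x ∈ A, ((cnt A D x : ℝ) - cnt A H x)) / A.card

def lidx (U : Subgroup G) : ℝ := Real.log (Nat.card G) - Real.log (Nat.card U)

lemma ret_nonneg (A : Finset G) {D H : Subgroup G} (h : H ≤ D) : 0 ≤ ret A D H := by
  unfold ret
  refine div_nonneg (Finset.sum_nonneg fun x _ => ?_) (Nat.cast_nonneg _)
  have : (cnt A H x : ℝ) ≤ cnt A D x := by exact_mod_cast cnt_mono A h x
  linarith

lemma ret_le (A : Finset G) (hA : A.Nonempty) {D H : Subgroup G} (h : H ≤ D) :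
    ret A D H ≤ (Nat.card D : ℝ) - Nat.card H := by
  have hA0 : (0 : ℝ) < A.card := by exact_mod_cast hA.card_pos
  unfold ret
  rw [div_le_iff₀ hA0]
  calc _ ≤ ∑ x ∈ A, ((Nat.card D : ℝ) - Nat.card H) :=
        Finset.sum_le_sum fun x _ => cnt_sub_le A h x
    _ = _ := by rw [Finset.sum_const, nsmul_eq_mul]; ring

lemma L_sup_le {𝓕 : Set (Subgroup G)} (h𝓕 : PermLattice 𝓕) (A : Finset G) (hA : A.Nonempty)
    {V D : Subgroup G} (hV : V ∈ 𝓕) (hD : D ∈ 𝓕) :
    L A V - L A (V ⊔ D) ≤ (lidx V - lidx (V ⊔ D)) - (T A D - T A (V ⊓ D)) / A.card ∧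
    lidx V - lidx (V ⊔ D) = Real.log (Nat.card D) - Real.log (Nat.card (V ⊓ D : Subgroup G)) := by
  have hA0 : (0 : ℝ) < A.card := by exact_mod_cast hA.card_pos
  constructor
  · have h := supermod A V D
    have h1 : T A V + T A D ≤ T A (V ⊔ D) + T A (V ⊓ D) := by
      unfold T
      rw [← Finset.sum_add_distrib, ← Finset.sum_add_distrib]
      exact h
    have h2 : (T A D - T A (V ⊓ D)) / A.card ≤ (T A (V ⊔ D) - T A V) / A.card :=
      div_le_div_of_nonneg_right (by linarith) hA0.le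
    have h3 : L A V - L A (V ⊔ D) = (lidx V - lidx (V ⊔ D)) - (T A (V ⊔ D) - T A V) / A.card := by
      unfold L lidx; ring
    linarith
  · have h := h𝓕.card V hV D hD
    have h1 : Real.log (Nat.card (V ⊔ D : Subgroup G)) + Real.log (Nat.card (V ⊓ D : Subgroup G)) =
        Real.log (Nat.card V) + Real.log (Nat.card D) := by
      rw [← Real.log_mul (card_pos' _).ne' (card_pos' _).ne',
        ← Real.log_mul (card_pos' _).ne' (card_pos' _).ne']
      congr 1
      exact_mod_cast h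
    unfold lidx
    linarith

lemma unif_step {𝓕 : Set (Subgroup G)} (h𝓕 : PermLattice 𝓕) (A : Finset G) (hA : A.Nonempty)
    {V D : Subgroup G} (hV : V ∈ 𝓕) (hD : D ∈ 𝓕) (hDV : ¬ D ≤ V) {q : ℝ}
    (hq : q * ((Nat.card D : ℝ) - Nat.card (D ⊓ V : Subgroup G)) ≤ ret A D (D ⊓ V)) :
    L A V - L A (V ⊔ D) ≤ (1 - q) * (lidx V - lidx (V ⊔ D)) := by
  have hA0 : (0 : ℝ) < A.card := by exact_mod_cast hA.card_pos
  obtain ⟨h1, h2⟩ := L_sup_le h𝓕 A hA hV hD
  have hlt : V ⊓ D < D := by
    refine lt_of_le_of_ne inf_le_right ?_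
    intro h
    exact hDV (inf_eq_right.1 h)
  have h3 := unif_local A hlt
  have hK : 0 < (Nat.card D : ℝ) - Nat.card (V ⊓ D : Subgroup G) := by
    have := card_lt_card hlt
    linarith
  rw [inf_comm] at hq
  have h4 : q ≤ ret A D (V ⊓ D) / ((Nat.card D : ℝ) - Nat.card (V ⊓ D : Subgroup G)) := by
    rw [le_div_iff₀ hK]; exact hq
  have hlog : 0 ≤ lidx V - lidx (V ⊔ D) := by
    rw [h2, sub_nonneg]
    exact Real.log_le_log (card_pos' _) (by linarith)
  have h5 : q * (lidx V - lidx (V ⊔ D)) ≤ (T A D - T A (V ⊓ D)) / A.card := by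
    refine (mul_le_mul_of_nonneg_right h4 hlog).trans ?_
    rw [le_div_iff₀ hA0]
    refine le_trans (le_of_eq ?_) h3
    rw [h2]
    unfold ret
    field_simp
  linarith

lemma gen_step {𝓕 : Set (Subgroup G)} (h𝓕 : PermLattice 𝓕) (A : Finset G) (hA : A.Nonempty)
    {V C C' : Subgroup G} {p : ℕ} (hV : V ∈ 𝓕) (hC : C ∈ 𝓕) (hg : GenTest C C' p) (hCV : ¬ C ≤ V)
    {q : ℝ} (hq : q * ((Nat.card C : ℝ) - Nat.card C') ≤ ret A C C') :
    L A V - L A (V ⊔ C) ≤ (1 - q) * (lidx V - lidx (V ⊔ C)) := by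
  have hA0 : (0 : ℝ) < A.card := by exact_mod_cast hA.card_pos
  obtain ⟨h1, h2⟩ := L_sup_le h𝓕 A hA hV hC
  have hne : V ⊓ C ≠ C := fun h => hCV (inf_eq_right.1 h)
  obtain ⟨hHC', j, hj, hcard⟩ := hg.sub (V ⊓ C) inf_le_right hne
  have h3 := gen_local A hg.le hHC' (p := _) (j := j) hg.two_le hj hg.card hcard
  have hc'0 := card_pos' C'
  have hp2 : (2 : ℝ) ≤ p := by exact_mod_cast hg.two_le
  have hK : 0 < (Nat.card C : ℝ) - Nat.card C' := by
    have : (Nat.card C : ℝ) = p * Nat.card C' := by rw [hg.card]; push_cast; rfl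
    rw [this]; nlinarith
  have h4 : q ≤ ret A C C' / ((Nat.card C : ℝ) - Nat.card C') := by
    rw [le_div_iff₀ hK]; exact hq
  have e1 : lidx V - lidx (V ⊔ C) = j * Real.log p := by
    have : (Nat.card C : ℝ) = (p : ℝ) ^ j * Nat.card (V ⊓ C : Subgroup G) := by
      rw [hcard]; push_cast; rfl
    rw [h2, this, Real.log_mul (by positivity) (card_pos' _).ne', Real.log_pow]
    ring
  have hlog : 0 ≤ lidx V - lidx (V ⊔ C) := by
    rw [e1]
    exact mul_nonneg (Nat.cast_nonneg _) (Real.log_nonneg (by linarith))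
  have h5 : q * (lidx V - lidx (V ⊔ C)) ≤ (T A C - T A (V ⊓ C)) / A.card := by
    refine (mul_le_mul_of_nonneg_right h4 hlog).trans ?_
    rw [le_div_iff₀ hA0]
    refine le_trans (le_of_eq ?_) h3
    rw [e1]
    unfold ret
    field_simp
  linarith

section main

variable {ι κ : Type} [Fintype ι] [Fintype κ] (D : ι → Subgroup G) (c : ι → ℝ)
  (C C' : κ → Subgroup G) (e : κ → ℝ)

/-- weight of the retained moves outside `U` -/
def S (A : Finset G) (U : Subgroup G) : ℝ :=
  ∑ i, c i * (ret A (D i) (D i ⊓ U) / Nat.card (D i)) +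
  ∑ k, if C k ≤ U then 0 else e k * (ret A (C k) (C' k) / ((Nat.card (C k) : ℝ) - Nat.card (C' k)))

/-- weight of the moves outside `U` -/
def O (U : Subgroup G) : ℝ :=
  ∑ i, c i * (((Nat.card (D i) : ℝ) - Nat.card (D i ⊓ U : Subgroup G)) / Nat.card (D i)) +
  ∑ k, if C k ≤ U then 0 else e k

/-- all tests have retention at most `q` outside `U` -/
def Inv (𝓕 : Set (Subgroup G)) (A : Finset G) (U : Subgroup G) (q : ℝ) : Prop :=
  (∀ E ∈ 𝓕, ret A E (E ⊓ U) ≤ q * ((Nat.card E : ℝ) - Nat.card (E ⊓ U : Subgroup G))) ∧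
  (∀ k, ¬ C k ≤ U → ret A (C k) (C' k) ≤ q * ((Nat.card (C k) : ℝ) - Nat.card (C' k)))

theorem induct {𝓕 : Set (Subgroup G)} (h𝓕 : PermLattice 𝓕) (hD : ∀ i, D i ∈ 𝓕) (hc : ∀ i, 0 ≤ c i)
    (p : κ → ℕ) (hC : ∀ k, C k ∈ 𝓕) (hg : ∀ k, GenTest (C k) (C' k) (p k)) (he : ∀ k, 0 ≤ e k)
    (lam : ℝ) (hlam : 0 ≤ lam) (m : ℝ) (hm : m ≤ 0)
    (hmW : ∀ W ∈ 𝓕, m ≤ O D c C e W - lam * lidx W) (A : Finset G) (hA : A.Nonempty) :
    ∀ (n : ℕ) (U : Subgroup G), U ∈ 𝓕 → Nat.card G - Nat.card U ≤ n → ∀ q : ℝ, 0 ≤ q →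
      Inv C C' 𝓕 A U q →
      S D c C C' e A U + lam * (L A U - (1 - q) * lidx U) ≤ q * (O D c C e U - m) := by
  have hA0 : (0 : ℝ) < A.card := by exact_mod_cast hA.card_pos
  have hKpos : ∀ k, 0 < (Nat.card (C k) : ℝ) - Nat.card (C' k) := by
    intro k
    have h1 := card_pos' (C' k)
    have h2 : (2 : ℝ) ≤ p k := by exact_mod_cast (hg k).two_le
    have h3 : (Nat.card (C k) : ℝ) = p k * Nat.card (C' k) := by rw [(hg k).card]; push_cast; rfl
    rw [h3]; nlinarith
  intro n
  induction n with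
  | zero =>
    intro U hU hcard q hq _
    have hUtop : U = ⊤ := by
      apply Subgroup.eq_top_of_card_eq
      have h1 : Nat.card U ≤ Nat.card G := Subgroup.card_le_card_group U
      omega
    subst hUtop
    have hS : S D c C C' e A ⊤ = 0 := by
      unfold S ret; simp
    have hL : L A (⊤ : Subgroup G) = 0 := by
      unfold L T
      have : ∀ x ∈ A, Real.log (cnt A (⊤ : Subgroup G) x) = Real.log A.card := by
        intro x _; rw [cnt_top]
      rw [Finset.sum_congr rfl this, Finset.sum_const, nsmul_eq_mul, Subgroup.card_top]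
      field_simp
      ring
    have hO : O D c C e ⊤ = 0 := by
      unfold O; simp
    have hl : lidx (⊤ : Subgroup G) = 0 := by
      unfold lidx; rw [Subgroup.card_top]; ring
    rw [hS, hL, hO, hl]
    have : 0 ≤ q * (0 - m) := mul_nonneg hq (by linarith)
    linarith
  | succ n ih =>
    intro U hU hcard q hq hInv
    by_cases hUtop : U = ⊤
    · exact ih U hU (by subst hUtop; rw [Subgroup.card_top]; omega) q hq hInv
    -- the best test
    have : Finite (Subgroup G) := inferInstance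
    let τ := {E : Subgroup G // E ∈ 𝓕 ∧ ¬ E ≤ U} ⊕ {k : κ // ¬ C k ≤ U}
    have : Nonempty τ := ⟨Sum.inl ⟨⊤, h𝓕.top, fun h => hUtop (top_le_iff.1 h)⟩⟩
    let val : τ → ℝ := fun t => t.elim
      (fun E => ret A E.1 (E.1 ⊓ U) / ((Nat.card E.1 : ℝ) - Nat.card (E.1 ⊓ U : Subgroup G)))
      (fun k => ret A (C k.1) (C' k.1) / ((Nat.card (C k.1) : ℝ) - Nat.card (C' k.1)))
    obtain ⟨t, ht⟩ := Finite.exists_max val
    set q' := val t with hq'
    have hEpos : ∀ (V E : Subgroup G), ¬ E ≤ V → 0 < (Nat.card E : ℝ) - Nat.card (E ⊓ V : Subgroup G) := by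
      intro V E hE
      have hlt : E ⊓ V < E := lt_of_le_of_ne inf_le_left (fun h => hE (inf_eq_left.1 h))
      have := card_lt_card hlt
      linarith
    have hInv' : Inv C C' 𝓕 A U q' := by
      constructor
      · intro E hE
        by_cases hEU : E ≤ U
        · have : E ⊓ U = E := inf_eq_left.2 hEU
          rw [this]
          unfold ret
          simp
        · have h1 := ht (Sum.inl ⟨E, hE, hEU⟩)
          simp only [val, Sum.elim_inl] at h1
          rw [div_le_iff₀ (hEpos U E hEU)] at h1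
          exact h1
      · intro k hk
        have h1 := ht (Sum.inr ⟨k, hk⟩)
        simp only [val, Sum.elim_inr] at h1
        rw [div_le_iff₀ (hKpos k)] at h1
        exact h1
    have hq'0 : 0 ≤ q' := by
      have h1 := ht (Sum.inl ⟨⊤, h𝓕.top, fun h => hUtop (top_le_iff.1 h)⟩)
      refine le_trans ?_ h1
      simp only [val, Sum.elim_inl]
      exact div_nonneg (ret_nonneg A inf_le_left) (hEpos U ⊤ (fun h => hUtop (top_le_iff.1 h))).le
    have hq'q : q' ≤ q := by
      rw [hq']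
      rcases ht' : t with ⟨E, hE, hEU⟩ | ⟨k, hk⟩
      · simp only [val, Sum.elim_inl]
        rw [div_le_iff₀ (hEpos U E hEU)]
        exact hInv.1 E hE
      · simp only [val, Sum.elim_inr]
        rw [div_le_iff₀ (hKpos k)]
        exact hInv.2 k hk
    -- the maximal block
    let 𝓦 : Set (Subgroup G) := {W | W ∈ 𝓕 ∧ U ≤ W ∧ L A U - L A W ≤ (1 - q') * (lidx U - lidx W)}
    have h𝓦 : 𝓦.Nonempty := ⟨U, hU, le_refl _, by simp⟩
    obtain ⟨U', ⟨hU'F, hUU', hLU'⟩, hmax⟩ := Set.exists_max_image 𝓦 (fun W => Nat.card W)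
      (Set.toFinite _) h𝓦
    -- a test with large retention enlarges the block
    have hext : ∀ E ∈ 𝓕, ¬ E ≤ U' → L A U' - L A (U' ⊔ E) ≤ (1 - q') * (lidx U' - lidx (U' ⊔ E)) →
        False := by
      intro E hE hEU' hstep
      have hW : U' ⊔ E ∈ 𝓦 := ⟨h𝓕.sup _ hU'F _ hE, hUU'.trans le_sup_left, by linarith⟩
      have h1 := hmax _ hW
      have hlt : U' < U' ⊔ E := lt_of_le_of_ne le_sup_left (fun h => hEU' (by
        have : E ≤ U' ⊔ E := le_sup_right
        rw [← h] at this; exact this))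
      have h2 : ((Nat.card U' : ℕ) : ℝ) < Nat.card (U' ⊔ E : Subgroup G) := card_lt_card hlt
      have h3 : Nat.card U' < Nat.card (U' ⊔ E : Subgroup G) := by exact_mod_cast h2
      omega
    have hInvU' : Inv C C' 𝓕 A U' q' := by
      constructor
      · intro E hE
        by_cases hEU : E ≤ U'
        · have : E ⊓ U' = E := inf_eq_left.2 hEU
          rw [this]
          unfold ret
          simp
        · by_contra hcon
          push Not at hcon
          exact hext E hE hEU (unif_step h𝓕 A hA hU'F hE hEU hcon.le)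
      · intro k hk
        by_contra hcon
        push Not at hcon
        exact hext (C k) (hC k) hk (gen_step h𝓕 A hA hU'F (hC k) (hg k) hk hcon.le)
    have hUne : U' ≠ U := by
      intro heq
      rcases ht' : t with ⟨E, hE, hEU⟩ | ⟨k, hk⟩
      · have hv : q' = ret A E (E ⊓ U) / ((Nat.card E : ℝ) - Nat.card (E ⊓ U : Subgroup G)) := by
          rw [hq', ht']; rfl
        refine hext E hE (heq ▸ hEU) (unif_step h𝓕 A hA hU'F hE (heq ▸ hEU) ?_)
        rw [heq, hv, div_mul_cancel₀ _ (hEpos U E hEU).ne']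
      · have hv : q' = ret A (C k) (C' k) / ((Nat.card (C k) : ℝ) - Nat.card (C' k)) := by
          rw [hq', ht']; rfl
        refine hext (C k) (hC k) (heq ▸ hk) (gen_step h𝓕 A hA hU'F (hC k) (hg k) (heq ▸ hk) ?_)
        rw [hv, div_mul_cancel₀ _ (hKpos k).ne']
    have hcardU' : Nat.card G - Nat.card U' ≤ n := by
      have hlt : U < U' := lt_of_le_of_ne hUU' hUne.symm
      have h2 : ((Nat.card U : ℕ) : ℝ) < Nat.card U' := card_lt_card hlt
      have h3 : Nat.card U < Nat.card U' := by exact_mod_cast h2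
      omega
    have hIH := ih U' hU'F hcardU' q' hq'0 hInvU'
    -- comparison of `S`
    have hS : S D c C C' e A U - S D c C C' e A U' ≤ q' * (O D c C e U - O D c C e U') := by
      have h1 : ∀ i, c i * (ret A (D i) (D i ⊓ U) / Nat.card (D i)) -
          c i * (ret A (D i) (D i ⊓ U') / Nat.card (D i)) ≤
          q' * (c i * (((Nat.card (D i) : ℝ) - Nat.card (D i ⊓ U : Subgroup G)) / Nat.card (D i)) -
          c i * (((Nat.card (D i) : ℝ) - Nat.card (D i ⊓ U' : Subgroup G)) / Nat.card (D i))) := by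
        intro i
        have h2 := hInv'.1 (D i ⊓ U') (h𝓕.inf _ (hD i) _ hU'F)
        have h3 : D i ⊓ U' ⊓ U = D i ⊓ U := by
          rw [inf_assoc, inf_eq_right.2 hUU']
        rw [h3] at h2
        have h4 : ret A (D i) (D i ⊓ U) - ret A (D i) (D i ⊓ U') = ret A (D i ⊓ U') (D i ⊓ U) := by
          unfold ret
          rw [← sub_div, ← Finset.sum_sub_distrib]
          congr 1
          refine Finset.sum_congr rfl fun x _ => by ring
        have hDi := card_pos' (D i)
        have h5 : c i * (ret A (D i) (D i ⊓ U) / Nat.card (D i)) -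
          c i * (ret A (D i) (D i ⊓ U') / Nat.card (D i)) =
          (c i / Nat.card (D i)) * ret A (D i ⊓ U') (D i ⊓ U) := by
          rw [← h4]; ring
        have h6 : q' * (c i * (((Nat.card (D i) : ℝ) - Nat.card (D i ⊓ U : Subgroup G)) / Nat.card (D i)) -
          c i * (((Nat.card (D i) : ℝ) - Nat.card (D i ⊓ U' : Subgroup G)) / Nat.card (D i))) =
          (c i / Nat.card (D i)) * (q' * ((Nat.card (D i ⊓ U' : Subgroup G) : ℝ) -
            Nat.card (D i ⊓ U : Subgroup G))) := by ring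
        rw [h5, h6]
        exact mul_le_mul_of_nonneg_left h2 (div_nonneg (hc i) hDi.le)
      have h2 : ∀ k, (if C k ≤ U then 0 else e k * (ret A (C k) (C' k) /
            ((Nat.card (C k) : ℝ) - Nat.card (C' k)))) -
          (if C k ≤ U' then 0 else e k * (ret A (C k) (C' k) /
            ((Nat.card (C k) : ℝ) - Nat.card (C' k)))) ≤
          q' * ((if C k ≤ U then 0 else e k) - (if C k ≤ U' then 0 else e k)) := by
        intro k
        by_cases h1 : C k ≤ U
        · have h2 : C k ≤ U' := h1.trans hUU'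
          simp [h1, h2]
        · by_cases h2 : C k ≤ U'
          · simp only [h1, h2, if_true, if_false, sub_zero]
            have h3 := hInv'.2 k h1
            have h4 : ret A (C k) (C' k) / ((Nat.card (C k) : ℝ) - Nat.card (C' k)) ≤ q' := by
              rw [div_le_iff₀ (hKpos k)]; exact h3
            have := mul_le_mul_of_nonneg_left h4 (he k)
            linarith
          · simp [h1, h2]
      unfold S O
      have h3 := Finset.sum_le_sum fun i (_ : i ∈ (univ : Finset ι)) => h1 i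
      have h4 := Finset.sum_le_sum fun k (_ : k ∈ (univ : Finset κ)) => h2 k
      rw [Finset.sum_sub_distrib, ← Finset.mul_sum, Finset.sum_sub_distrib] at h3 h4
      linarith
    have hgU := hmW U hU
    have h7 : (q - q') * (lam * lidx U) ≤ (q - q') * (O D c C e U - m) :=
      mul_le_mul_of_nonneg_left (by linarith) (by linarith)
    have h8 : lam * (L A U - L A U') ≤ lam * ((1 - q') * (lidx U - lidx U')) :=
      mul_le_mul_of_nonneg_left hLU' hlam
    nlinarith [hIH, hS, h7, h8]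

/-- the inequality for sets -/
theorem greedy {𝓕 : Set (Subgroup G)} (h𝓕 : PermLattice 𝓕) (hD : ∀ i, D i ∈ 𝓕) (hc : ∀ i, 0 ≤ c i)
    (p : κ → ℕ) (hC : ∀ k, C k ∈ 𝓕) (hg : ∀ k, GenTest (C k) (C' k) (p k)) (he : ∀ k, 0 ≤ e k)
    (lam : ℝ) (hlam : 0 ≤ lam) (m : ℝ)
    (hmW : ∀ W ∈ 𝓕, m ≤ O D c C e W - lam * lidx W) (A : Finset G) (hA : A.Nonempty) :
    m ≤ (O D c C e ⊥ - S D c C C' e A ⊥) - lam * Real.log (Nat.card G / A.card) := by
  have hA0 : (0 : ℝ) < A.card := by exact_mod_cast hA.card_pos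
  have hm : m ≤ 0 := by
    have h1 := hmW ⊤ h𝓕.top
    have hO : O D c C e ⊤ = 0 := by
      unfold O; simp
    have hl : lidx (⊤ : Subgroup G) = 0 := by
      unfold lidx; rw [Subgroup.card_top]; ring
    rw [hO, hl] at h1
    linarith
  have hInv : Inv C C' 𝓕 A ⊥ 1 := by
    constructor
    · intro E _
      rw [one_mul]
      exact ret_le A hA inf_le_left
    · intro k _
      rw [one_mul]
      exact ret_le A hA (hg k).le
  have h := induct D c C C' e h𝓕 hD hc p hC hg he lam hlam m hm hmW A hA _ ⊥ h𝓕.bot (le_refl _) 1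
    zero_le_one hInv
  have hL : L A (⊥ : Subgroup G) = Real.log (Nat.card G / A.card) := by
    unfold L T
    have : ∀ x ∈ A, Real.log (cnt A (⊥ : Subgroup G) x) = 0 := by
      intro x hx; rw [cnt_bot A hx]; simp
    rw [Finset.sum_congr rfl this, Finset.sum_const_zero, Subgroup.card_bot,
      Real.log_div (by exact_mod_cast (Nat.card_pos (α := G)).ne') hA0.ne']
    simp
  rw [hL] at h
  linarith

end main

end

end Pool.Agent.L7h51.SSE
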