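import Mathlib

set_option autoImplicit false

/-! Real inequalities about logarithms. -/

namespace Pool.Agent.L7h51.SSE

open Real

/-- concavity of the logarithm -/
lemma log_chord {b K s : ℝ} (hb : 0 < b) (hK : 0 < K) (hs : 0 ≤ s) (hsK : s ≤ K) :
    s / K * (log (b + K) - log b) ≤ log (b + s) - log b := by
  have ht0 : 0 ≤ s / K := div_nonneg hs hK.le
  have ht1 : s / K ≤ 1 := by rw [div_le_one hK]; exact hsK
  have hm1 : b ∈ Set.Ioi (0:ℝ) := hb
  have hm2 : b + K ∈ Set.Ioi (0:ℝ) := Set.mem_Ioi.mpr (by linarith)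
  have hc := strictConcaveOn_log_Ioi.concaveOn.2 hm1 hm2 (sub_nonneg.2 ht1) ht0 (by ring)
  simp only [smul_eq_mul] at hc
  have e : (1 - s / K) * b + s / K * (b + K) = b + s := by field_simp; ring
  rw [e] at hc
  linarith

/-- the inequality at a coset -/
lemma local_ineq {b M N s : ℝ} (hb : 0 < b) (hbM : b ≤ M) (hN : 1 < N) (hs : 0 ≤ s)
    (hsK : s ≤ M * (N - 1)) : s / (M * (N - 1)) * log N ≤ log (b + s) - log b := by
  have hM : 0 < M := hb.trans_le hbM
  have hK : 0 < M * (N - 1) := mul_pos hM (by linarith)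
  refine le_trans ?_ (log_chord hb hK hs hsK)
  refine mul_le_mul_of_nonneg_left ?_ (div_nonneg hs hK.le)
  rw [← log_div (by positivity) hb.ne']
  refine log_le_log (by linarith) ?_
  rw [le_div_iff₀ hb]
  nlinarith

lemma two_sub_log_two : (0.1 : ℝ) ≤ 2 - log 2 - (1/2 + log 2) := by
  have := Real.log_two_lt_d9
  linarith

lemma log_lin {a x : ℝ} (hx : 0 < x) (ha : 0 < a) : log a - log x ≤ (a - x) / x := by
  rw [← log_div ha.ne' hx.ne']
  have := log_le_sub_one_of_pos (div_pos ha hx)
  have e : a / x - 1 = (a - x) / x := by field_simp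
  linarith

/-- an auxiliary inequality, `a ≥ 2` -/
lemma ineq_a {a u ρ : ℝ} (ha : 2 ≤ a) (hu : 1/2 ≤ u) (hu1 : u ≤ 1) (hρ : u / a ≤ ρ) (hρ1 : ρ ≤ 1) :
    a * ρ ≤ a + log ρ := by
  have ha0 : 0 < a := by linarith
  have hu0 : 0 < u := by linarith
  set r := u / a with hr
  have hr0 : 0 < r := div_pos hu0 ha0
  have hr1 : r < 1 := by rw [hr, div_lt_one ha0]; linarith
  have hρ0 : 0 < ρ := hr0.trans_le hρ
  -- value at r
  have h1 : log a ≤ log 2 + (a - 2) / 2 := by
    have := log_lin (a := a) (x := 2) (by norm_num) ha0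
    linarith
  have h2 : -log u ≤ log 2 + (1/2 - u) * 1 := by
    -- log (1/2) - log u ≤ (1/2 - u)/u ; rather use monotonicity
    have h3 := log_lin (a := (1/2:ℝ)) (x := u) hu0 (by norm_num)
    have h4 : log (1/2 : ℝ) = - log 2 := by rw [one_div, log_inv]
    rw [h4] at h3
    have h5 : (1/2 - u) / u ≤ (1/2 - u) * 1 := by
      rw [div_le_iff₀ hu0]
      nlinarith
    linarith
  have h6 : 0 ≤ a * (1 - r) + log r := by
    rw [hr, log_div hu0.ne' ha0.ne']
    have e : a * (1 - u / a) = a - u := by field_simp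
    rw [e]
    have := two_sub_log_two
    nlinarith
  -- concavity between r and 1
  have h7 := log_chord (b := r) (K := 1 - r) (s := ρ - r) hr0 (by linarith) (by linarith) (by linarith)
  have e1 : r + (1 - r) = 1 := by ring
  have e2 : r + (ρ - r) = ρ := by ring
  rw [e1, e2, log_one] at h7
  have h8 : (ρ - r) / (1 - r) * (0 - log r) = - log r + (1 - ρ) / (1 - r) * log r := by
    have : 1 - r ≠ 0 := by linarith
    field_simp
    ring
  rw [h8] at h7
  have h9 : -(a * (1 - r)) ≤ log r := by linarith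
  have h10 : (1 - ρ) / (1 - r) * (-(a * (1 - r))) ≤ (1 - ρ) / (1 - r) * log r :=
    mul_le_mul_of_nonneg_left h9 (div_nonneg (by linarith) (by linarith))
  have h11 : (1 - ρ) / (1 - r) * (-(a * (1 - r))) = -(a * (1 - ρ)) := by
    have : 1 - r ≠ 0 := by linarith
    field_simp
  linarith

/-- the chord of the logarithm between `1/2` and `1` -/
lemma ineq_two {ρ : ℝ} (hρ : 1 / 2 ≤ ρ) (hρ1 : ρ ≤ 1) :
    2 * log 2 * ρ ≤ 2 * log 2 + log ρ := by
  have h7 := log_chord (b := (1/2:ℝ)) (K := 1/2) (s := ρ - 1/2) (by norm_num) (by norm_num) (by linarith)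
    (by linarith)
  have e1 : (1/2 : ℝ) + 1/2 = 1 := by norm_num
  have e2 : (1/2 : ℝ) + (ρ - 1/2) = ρ := by ring
  have h4 : log (1/2 : ℝ) = - log 2 := by rw [one_div, log_inv]
  rw [e1, e2, log_one, h4] at h7
  linarith

noncomputable section

/-- `(1+t) log (1+t) + (1-t) log (1-t)` -/
def gf (t : ℝ) : ℝ := (1 + t) * log (1 + t) + (1 - t) * log (1 - t)

lemma gf_continuous : Continuous gf := by
  unfold gf
  have h := Real.continuous_mul_log
  exact (h.comp (continuous_const.add continuous_id)).add
    (h.comp (continuous_const.sub continuous_id))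

lemma gf_deriv {t : ℝ} (h1 : -1 < t) (h2 : t < 1) :
    HasDerivAt gf (log (1 + t) - log (1 - t)) t := by
  unfold gf
  have a1 : HasDerivAt (fun t : ℝ => 1 + t) 1 t := by simpa using (hasDerivAt_id t).const_add 1
  have a2 : HasDerivAt (fun t : ℝ => 1 - t) (-1) t := by simpa using (hasDerivAt_id t).const_sub 1
  have b1 := a1.mul (a1.log (by linarith))
  have b2 := a2.mul (a2.log (by linarith))
  refine (b1.add b2).congr_deriv ?_
  have c1 : (1 + t) ≠ 0 := by linarith
  have c2 : (1 - t) ≠ 0 := by linarith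
  field_simp
  ring

def kf (t : ℝ) : ℝ := t * (log (1 + t) - log (1 - t)) - 2 * gf t

lemma kf_deriv {t : ℝ} (h1 : -1 < t) (h2 : t < 1) :
    HasDerivAt kf (2 * t / (1 - t ^ 2) - (log (1 + t) - log (1 - t))) t := by
  unfold kf
  have a1 : HasDerivAt (fun t : ℝ => 1 + t) 1 t := by simpa using (hasDerivAt_id t).const_add 1
  have a2 : HasDerivAt (fun t : ℝ => 1 - t) (-1) t := by simpa using (hasDerivAt_id t).const_sub 1
  have c1 : (1 + t) ≠ 0 := by linarith
  have c2 : (1 - t) ≠ 0 := by linarith
  have b := ((hasDerivAt_id t).mul ((a1.log c1).sub (a2.log c2))).sub ((gf_deriv h1 h2).const_mul 2)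
  refine b.congr_deriv ?_
  have c3 : 1 - t ^ 2 ≠ 0 := by
    have : 1 - t ^ 2 = (1 + t) * (1 - t) := by ring
    rw [this]; exact mul_ne_zero c1 c2
  simp only [id, Pi.sub_apply]
  field_simp
  ring

lemma log_le_half {z : ℝ} (hz : 1 ≤ z) : log z ≤ (z - z⁻¹) / 2 := by
  have h := Real.self_le_sinh_iff.2 (Real.log_nonneg hz)
  rwa [Real.sinh_log (by linarith)] at h

lemma kf_nonneg {t : ℝ} (h1 : 0 ≤ t) (h2 : t < 1) : 0 ≤ kf t := by
  have hmono : MonotoneOn kf (Set.Ico 0 1) := by
    refine monotoneOn_of_deriv_nonneg (convex_Ico 0 1) ?_ ?_ ?_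
    · intro x hx
      exact (kf_deriv (by linarith [hx.1]) hx.2).continuousAt.continuousWithinAt
    · intro x hx
      rw [interior_Ico] at hx
      exact (kf_deriv (by linarith [hx.1]) hx.2).differentiableAt.differentiableWithinAt
    · intro x hx
      rw [interior_Ico] at hx
      rw [(kf_deriv (by linarith [hx.1]) hx.2).deriv]
      have p1 : 0 < 1 + x := by linarith [hx.1]
      have p2 : 0 < 1 - x := by linarith [hx.2]
      have hz : 1 ≤ (1 + x) / (1 - x) := by
        rw [le_div_iff₀ p2]; linarith [hx.1]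
      have h := log_le_half hz
      rw [log_div p1.ne' p2.ne'] at h
      have e : ((1 + x) / (1 - x) - ((1 + x) / (1 - x))⁻¹) / 2 = 2 * x / (1 - x ^ 2) := by
        have : 1 - x ^ 2 = (1 + x) * (1 - x) := by ring
        rw [this]
        field_simp
        ring
      rw [e] at h
      linarith
  have h0 : kf 0 = 0 := by simp [kf, gf]
  have := hmono (Set.mem_Ico.2 ⟨le_refl _, zero_lt_one⟩) (Set.mem_Ico.2 ⟨h1, h2⟩) h1
  linarith

lemma gf_le {t : ℝ} (h1 : 0 < t) (h2 : t ≤ 1) : gf t ≤ 2 * log 2 * t ^ 2 := by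
  have hmono : MonotoneOn (fun t => gf t / t ^ 2) (Set.Ioc 0 1) := by
    refine monotoneOn_of_deriv_nonneg (convex_Ioc 0 1) ?_ ?_ ?_
    · intro x hx
      exact (gf_continuous.continuousAt.div (continuous_pow 2).continuousAt
        (pow_ne_zero 2 hx.1.ne')).continuousWithinAt
    · intro x hx
      rw [interior_Ioc] at hx
      exact ((gf_deriv (by linarith [hx.1]) hx.2).div (hasDerivAt_pow 2 x)
        (pow_ne_zero 2 hx.1.ne')).differentiableAt.differentiableWithinAt
    · intro x hx
      rw [interior_Ioc] at hx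
      have hd := ((gf_deriv (by linarith [hx.1]) hx.2).div (hasDerivAt_pow 2 x)
        (pow_ne_zero 2 hx.1.ne'))
      have : deriv (fun t => gf t / t ^ 2) x = _ := hd.deriv
      rw [this]
      have hk := kf_nonneg hx.1.le hx.2
      unfold kf at hk
      refine div_nonneg ?_ (by positivity)
      have : (log (1 + x) - log (1 - x)) * x ^ 2 - gf x * (↑2 * x ^ (2 - 1))
          = x * (x * (log (1 + x) - log (1 - x)) - 2 * gf x) := by
        norm_num
        ring
      push_cast at this ⊢
      rw [this]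
      exact mul_nonneg hx.1.le hk
  have := hmono (Set.mem_Ioc.2 ⟨h1, h2⟩) (Set.mem_Ioc.2 ⟨zero_lt_one, le_refl _⟩) h2
  simp only at this
  have h3 : gf 1 / 1 ^ 2 = 2 * log 2 := by
    unfold gf; norm_num
  rw [h3, div_le_iff₀ (by positivity)] at this
  exact this

/-- the entropy of a coin is at least `4 log 2` times its variance -/
lemma entropy_two {x y : ℝ} (hx : 0 < x) (hy : 0 < y) :
    4 * log 2 * (x * y) / (x + y) ≤
      x * (log (x + y) - log x) + y * (log (x + y) - log y) := by
  wlog hxy : y ≤ x generalizing x y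
  · have := this hy hx (le_of_not_ge hxy)
    rw [add_comm y x] at this
    rw [mul_comm x y]
    linarith
  rcases eq_or_lt_of_le hxy with h | h
  · subst h
    have e1 : log (y + y) - log y = log 2 := by
      rw [← log_div (by positivity) hy.ne']
      congr 1
      field_simp
      norm_num
    rw [e1]
    have e2 : 4 * log 2 * (y * y) / (y + y) = 2 * log 2 * y := by
      field_simp
      ring
    rw [e2]
    linarith
  · set S := x + y with hS
    have hS0 : 0 < S := by positivity
    set t := (x - y) / S with ht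
    have ht0 : 0 < t := div_pos (by linarith) hS0
    have ht1 : t < 1 := by rw [ht, div_lt_one hS0]; linarith
    have hxS : x = S / 2 * (1 + t) := by
      rw [ht]; field_simp; rw [hS]; ring
    have hyS : y = S / 2 * (1 - t) := by
      rw [ht]; field_simp; rw [hS]; ring
    have hl1 : log x = log S - log 2 + log (1 + t) := by
      conv_lhs => rw [hxS]
      rw [log_mul (by positivity) (by linarith), log_div hS0.ne' (by norm_num)]
    have hl2 : log y = log S - log 2 + log (1 - t) := by
      conv_lhs => rw [hyS]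
      rw [log_mul (by positivity) (by linarith), log_div hS0.ne' (by norm_num)]
    have hg := gf_le ht0 ht1.le
    unfold gf at hg
    have e3 : 4 * log 2 * (x * y) / S = S * log 2 * (1 - t ^ 2) := by
      have : x * y = S ^ 2 / 4 * (1 - t ^ 2) := by
        conv_lhs => rw [hxS, hyS]
        ring
      rw [this]
      field_simp
    rw [e3, hl1, hl2]
    have e4 : x * (log S - (log S - log 2 + log (1 + t))) + y * (log S - (log S - log 2 + log (1 - t)))
        = S / 2 * (2 * log 2 - ((1 + t) * log (1 + t) + (1 - t) * log (1 - t))) := by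
      have e5 : x * (log S - (log S - log 2 + log (1 + t))) = (S / 2 * (1 + t)) * (log 2 - log (1 + t)) := by
        rw [← hxS]; ring
      have e6 : y * (log S - (log S - log 2 + log (1 - t))) = (S / 2 * (1 - t)) * (log 2 - log (1 - t)) := by
        rw [← hyS]; ring
      rw [e5, e6]
      ring
    rw [e4]
    nlinarith

end

end Pool.Agent.L7h51.SSE
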