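import Pool.Agent.L7h51.SSE.Cnt
import Pool.Agent.L7h51.SSE.RealIneq

set_option autoImplicit false
set_option linter.unusedSectionVars false
set_option maxHeartbeats 4000000

/-! The step inequalities. -/

namespace Pool.Agent.L7h51.SSE

open Finset
open scoped Classical

noncomputable section

variable {G : Type} [Group G] [Fintype G]

/-- the sum of the logarithms of the coset counts -/
def T (A : Finset G) (U : Subgroup G) : ℝ := ∑ x ∈ A, Real.log (cnt A U x)

/-- the entropy deficit of the cosets of `U` -/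
def L (A : Finset G) (U : Subgroup G) : ℝ :=
  Real.log (Nat.card G) - Real.log (Nat.card U) - Real.log A.card + T A U / A.card

lemma card_pos' (U : Subgroup G) : (0 : ℝ) < Nat.card U := by
  exact_mod_cast Nat.card_pos

lemma cnt_sub_le (A : Finset G) {H D : Subgroup G} (h : H ≤ D) (x : G) :
    (cnt A D x : ℝ) - cnt A H x ≤ (Nat.card D : ℝ) - Nat.card H := by
  have h1 : cnt A D x = cnt A H x + (A.filter fun z => x⁻¹ * z ∈ D ∧ x⁻¹ * z ∉ H).card := by
    unfold cnt
    rw [← Finset.card_union_of_disjoint]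
    · congr 1
      ext z
      simp only [Finset.mem_filter, Finset.mem_union]
      constructor
      · rintro ⟨a, b⟩
        by_cases hz : x⁻¹ * z ∈ H
        · exact Or.inl ⟨a, hz⟩
        · exact Or.inr ⟨a, b, hz⟩
      · rintro (⟨a, b⟩ | ⟨a, b, _⟩)
        · exact ⟨a, h b⟩
        · exact ⟨a, b⟩
    · rw [Finset.disjoint_left]
      intro z hz hz'
      simp only [Finset.mem_filter] at hz hz'
      exact hz'.2.2 hz.2
  have h2 : (A.filter fun z => x⁻¹ * z ∈ D ∧ x⁻¹ * z ∉ H).card ≤
      (univ.filter fun z : G => z ∈ D ∧ z ∉ H).card := by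
    refine Finset.card_le_card_of_injOn (fun z => x⁻¹ * z) ?_ ?_
    · intro z hz
      simp only [Finset.coe_filter, Set.mem_ofPred_eq, Finset.mem_univ, true_and] at hz ⊢
      exact hz.2
    · intro z _ w _ h
      simpa using h
  have h3 : (univ.filter fun z : G => z ∈ D ∧ z ∉ H).card + Nat.card H = Nat.card D := by
    rw [Nat.card_eq_fintype_card, Nat.card_eq_fintype_card, Fintype.card_subtype,
      Fintype.card_subtype, ← Finset.card_union_of_disjoint]
    · congr 1
      ext z
      simp only [Finset.mem_filter, Finset.mem_union, Finset.mem_univ, true_and]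
      constructor
      · rintro (⟨a, _⟩ | a)
        · exact a
        · exact h a
      · intro a
        by_cases hz : z ∈ H
        · exact Or.inr hz
        · exact Or.inl ⟨a, hz⟩
    · rw [Finset.disjoint_left]
      intro z hz hz'
      simp only [Finset.mem_filter] at hz hz'
      exact hz.2.2 hz'.2
  have h4 : (cnt A D x : ℝ) ≤ cnt A H x + (univ.filter fun z : G => z ∈ D ∧ z ∉ H).card := by
    rw [h1]; push_cast
    have : ((A.filter fun z => x⁻¹ * z ∈ D ∧ x⁻¹ * z ∉ H).card : ℝ) ≤
      (univ.filter fun z : G => z ∈ D ∧ z ∉ H).card := by exact_mod_cast h2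
    linarith
  have h5 : ((univ.filter fun z : G => z ∈ D ∧ z ∉ H).card : ℝ) + Nat.card H = Nat.card D := by
    exact_mod_cast h3
  linarith

lemma card_lt_card {H D : Subgroup G} (h : H < D) : (Nat.card H : ℝ) < Nat.card D := by
  have h1 : (H : Set G) ⊂ (D : Set G) := h
  have := Set.ncard_lt_ncard h1 (Set.toFinite _)
  have e1 : (H : Set G).ncard = Nat.card H := rfl
  have e2 : (D : Set G).ncard = Nat.card D := rfl
  rw [e1, e2] at this
  exact_mod_cast this

/-- the local inequality for the uniform distribution on `D \ H` -/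
lemma unif_local (A : Finset G) {H D : Subgroup G} (h : H < D) :
    (∑ x ∈ A, ((cnt A D x : ℝ) - cnt A H x)) / ((Nat.card D : ℝ) - Nat.card H) *
      (Real.log (Nat.card D) - Real.log (Nat.card H)) ≤ T A D - T A H := by
  have hH := card_pos' H
  have hD := card_pos' D
  have hlt := card_lt_card h
  unfold T
  rw [← Finset.sum_sub_distrib, Finset.sum_div, Finset.sum_mul]
  refine Finset.sum_le_sum fun x hx => ?_
  have hb : (0 : ℝ) < cnt A H x := by exact_mod_cast cnt_pos A H hx
  have hbM : (cnt A H x : ℝ) ≤ Nat.card H := by exact_mod_cast cnt_le A H x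
  have hN : 1 < (Nat.card D : ℝ) / Nat.card H := by rwa [lt_div_iff₀ hH, one_mul]
  have hK : (Nat.card H : ℝ) * ((Nat.card D : ℝ) / Nat.card H - 1) = (Nat.card D : ℝ) - Nat.card H := by
    field_simp
  have hs : (0 : ℝ) ≤ (cnt A D x : ℝ) - cnt A H x := by
    have : (cnt A H x : ℝ) ≤ cnt A D x := by exact_mod_cast cnt_mono A h.le x
    linarith
  have hsK := cnt_sub_le A h.le x
  have key := local_ineq hb hbM hN hs (by rw [hK]; exact hsK)
  rw [hK, Real.log_div hD.ne' hH.ne'] at key
  have e : (cnt A H x : ℝ) + ((cnt A D x : ℝ) - cnt A H x) = cnt A D x := by ring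
  rw [e] at key
  exact key

/-- AM-HM in a coset -/
lemma sum_cnt_ge (B : Finset G) (f : G → ℝ) (hf : ∀ y ∈ B, 0 < f y) (q : ℝ)
    (hq : ∑ y ∈ B, 1 / f y ≤ q) (t : ℝ) :
    2 * t * B.card - t ^ 2 * q ≤ ∑ y ∈ B, f y := by
  have h1 : ∀ y ∈ B, 2 * t - t ^ 2 * (1 / f y) ≤ f y := by
    intro y hy
    have h := hf y hy
    have : 0 ≤ (f y - t) ^ 2 / f y := div_nonneg (sq_nonneg _) h.le
    have e : (f y - t) ^ 2 / f y = f y - (2 * t - t ^ 2 * (1 / f y)) := by
      field_simp
      ring
    linarith
  have h2 := Finset.sum_le_sum h1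
  rw [Finset.sum_sub_distrib, Finset.sum_const, nsmul_eq_mul, ← Finset.mul_sum] at h2
  have h3 : t ^ 2 * ∑ y ∈ B, 1 / f y ≤ t ^ 2 * q := mul_le_mul_of_nonneg_left hq (sq_nonneg t)
  linarith

/-- the local inequality for the uniform distribution on `C \ C'`, relative to `H`, where
`H ≤ C' ≤ C`, `|C| = p |C'| = p ^ j |H|` -/
lemma gen_local (A : Finset G) {H C' C : Subgroup G} (hC' : C' ≤ C) (hH : H ≤ C') (p j : ℕ)
    (hp : 2 ≤ p) (hj : 1 ≤ j) (hcard : Nat.card C = p * Nat.card C')
    (hcardH : Nat.card C = p ^ j * Nat.card H) :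
    (∑ x ∈ A, ((cnt A C x : ℝ) - cnt A C' x)) / ((Nat.card C : ℝ) - Nat.card C') *
      (j * Real.log p) ≤ T A C - T A H := by
  have hp0 : (0 : ℝ) < p := by exact_mod_cast (by omega : 0 < p)
  have hp2 : (2 : ℝ) ≤ p := by exact_mod_cast hp
  set c : ℝ := (Nat.card C : ℝ) with hc
  set c' : ℝ := (Nat.card C' : ℝ) with hc'
  set h : ℝ := (Nat.card H : ℝ) with hh
  have hc0 : 0 < c := card_pos' C
  have hc'0 : 0 < c' := card_pos' C'
  have hh0 : 0 < h := card_pos' H
  have e1 : c = p * c' := by rw [hc, hcard]; push_cast; rfl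
  have e2 : c = (p : ℝ) ^ j * h := by rw [hc, hcardH]; push_cast; rfl
  have hlt : c' < c := by rw [e1]; nlinarith
  have hltC : C' < C := by
    refine lt_of_le_of_ne hC' ?_
    rintro rfl
    exact lt_irrefl _ hlt
  rcases Nat.lt_or_ge 1 j with hj2 | hj1
  swap
  · -- `j = 1`
    have hj' : j = 1 := by omega
    subst hj'
    have hcc : Nat.card H = Nat.card C' := by
      have h0 : p * Nat.card C' = p ^ 1 * Nat.card H := by rw [← hcard, hcardH]
      rw [pow_one] at h0
      exact (Nat.eq_of_mul_eq_mul_left (by omega) h0).symm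
    have hHC : H = C' := by
      apply SetLike.coe_injective
      exact Set.eq_of_subset_of_ncard_le hH (by
        have e1 : (H : Set G).ncard = Nat.card H := rfl
        have e2 : (C' : Set G).ncard = Nat.card C' := rfl
        rw [e1, e2, hcc]) (Set.toFinite _)
    subst hHC
    have key := unif_local A hltC
    have : Real.log (Nat.card C) - Real.log (Nat.card H) = (1 : ℕ) * Real.log p := by
      rw [← hc, ← hh, e2, pow_one, Real.log_mul hp0.ne' hh0.ne']
      push_cast; ring
    rw [this] at key
    exact key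
  -- `j ≥ 2`
  set a : ℝ := j * Real.log p with ha
  have hlogp : 0 < Real.log p := Real.log_pos (by linarith)
  have ha0 : 0 < a := mul_pos (by exact_mod_cast hj) hlogp
  have hK0 : 0 < c - c' := by linarith
  set K := c - c' with hK
  have hKc : K = c * (1 - 1 / p) := by rw [hK, e1]; field_simp
  have hlogc : Real.log c = a + Real.log h := by
    rw [e2, Real.log_mul (by positivity) hh0.ne', Real.log_pow]
  have hHC : H ≤ C := hH.trans hC'
  -- reduction to cosets
  let F : G → ℝ := fun y => (Real.log (cnt A C y) - Real.log (cnt A H y)) -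
    a / K * ((cnt A C y : ℝ) - cnt A C' y)
  suffices hF : 0 ≤ ∑ x ∈ A, F x by
    simp only [F] at hF
    rw [Finset.sum_sub_distrib, ← Finset.mul_sum] at hF
    have : T A C - T A H = ∑ x ∈ A, (Real.log (cnt A C x) - Real.log (cnt A H x)) := by
      unfold T; rw [Finset.sum_sub_distrib]
    rw [this]
    have e : (∑ x ∈ A, ((cnt A C x : ℝ) - cnt A C' x)) / K * a
        = a / K * ∑ x ∈ A, ((cnt A C x : ℝ) - cnt A C' x) := by ring
    rw [e]
    linarith
  rw [sum_avg A C F]
  refine Finset.sum_nonneg fun x hx => mul_nonneg (by positivity) ?_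
  set B := A.filter (fun y => x⁻¹ * y ∈ C) with hB
  set m : ℝ := (cnt A C x : ℝ) with hm
  have hBm : (B.card : ℝ) = m := rfl
  have hm0 : 0 < m := by
    rw [hm]; exact_mod_cast cnt_pos A C hx
  have hBA : ∀ y ∈ B, y ∈ A := fun y hy => (Finset.mem_filter.1 hy).1
  have hcm : ∀ y ∈ B, (cnt A C y : ℝ) = m := by
    intro y hy
    rw [hm, cnt_congr A C (Finset.mem_filter.1 hy).2]
  have hmc : m ≤ c := by rw [hm, hc]; exact_mod_cast cnt_le A C x
  have hF' : ∑ y ∈ B, F y = ∑ y ∈ B, ((Real.log m - Real.log (cnt A H y)) -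
      a / K * (m - cnt A C' y)) := by
    refine Finset.sum_congr rfl fun y hy => ?_
    simp only [F]
    rw [hcm y hy]
  rw [hF']
  have hposH : ∀ y ∈ B, (0 : ℝ) < cnt A H y := fun y hy => by
    exact_mod_cast cnt_pos A H (hBA y hy)
  have hposC' : ∀ y ∈ B, (0 : ℝ) < cnt A C' y := fun y hy => by
    exact_mod_cast cnt_pos A C' (hBA y hy)
  have hleC' : ∀ y ∈ B, (cnt A C' y : ℝ) ≤ m := by
    intro y hy
    rw [← hcm y hy]
    exact_mod_cast cnt_mono A hC' y
  have hHC'cnt : ∀ y ∈ B, Real.log (cnt A H y) ≤ Real.log (cnt A C' y) := by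
    intro y hy
    exact Real.log_le_log (hposH y hy) (by exact_mod_cast cnt_mono A hH y)
  have hlogh : ∀ y ∈ B, Real.log (cnt A H y) ≤ Real.log h := by
    intro y hy
    exact Real.log_le_log (hposH y hy) (by rw [hh]; exact_mod_cast cnt_le A H y)
  have hinv : ∑ y ∈ B, 1 / (cnt A C' y : ℝ) ≤ p := by
    have := sum_inv_le A hC' x
    rw [← hc, ← hc', e1] at this
    rw [mul_comm (p : ℝ) c'] at this
    exact le_of_mul_le_mul_left this hc'0
  have hsum : ∑ y ∈ B, (m - (cnt A C' y : ℝ)) ≤ m ^ 2 * (1 - 1 / p) := by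
    have h1 := sum_cnt_ge B (fun y => (cnt A C' y : ℝ)) hposC' p hinv (m / p)
    rw [Finset.sum_sub_distrib, Finset.sum_const, nsmul_eq_mul, hBm]
    rw [hBm] at h1
    have e : 2 * (m / p) * m - (m / p) ^ 2 * p = m ^ 2 / p := by field_simp; ring
    rw [e] at h1
    have e' : m ^ 2 * (1 - 1 / p) = m * m - m ^ 2 / p := by ring
    rw [e']
    linarith
  -- the bound for large cosets
  have hlarge : a * (m / c) ≤ a + Real.log (m / c) →
      0 ≤ ∑ y ∈ B, ((Real.log m - Real.log (cnt A H y)) - a / K * (m - cnt A C' y)) := by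
    intro hyp
    have h1 : ∑ y ∈ B, ((Real.log m - Real.log h) - a / K * (m - cnt A C' y)) ≤
        ∑ y ∈ B, ((Real.log m - Real.log (cnt A H y)) - a / K * (m - cnt A C' y)) := by
      refine Finset.sum_le_sum fun y hy => ?_
      have := hlogh y hy
      linarith
    refine le_trans ?_ h1
    rw [Finset.sum_sub_distrib, Finset.sum_const, nsmul_eq_mul, ← Finset.mul_sum, hBm]
    have h2 : a / K * ∑ y ∈ B, (m - (cnt A C' y : ℝ)) ≤ a / K * (m ^ 2 * (1 - 1 / p)) :=
      mul_le_mul_of_nonneg_left hsum (div_nonneg ha0.le hK0.le)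
    have h3 : a / K * (m ^ 2 * (1 - 1 / p)) = m * (a * (m / c)) := by
      have hu : (1 - 1 / (p : ℝ)) ≠ 0 := by
        have : 1 / (p : ℝ) ≤ 1 / 2 := one_div_le_one_div_of_le (by norm_num) hp2
        linarith
      rw [hKc]
      generalize (1 - 1 / (p : ℝ)) = u at hu ⊢
      field_simp
    have h4 : Real.log (m / c) = Real.log m - (a + Real.log h) := by
      rw [Real.log_div hm0.ne' hc0.ne', hlogc]
    rw [h4] at hyp
    have h5 : m * (a * (m / c)) ≤ m * (Real.log m - Real.log h) :=
      mul_le_mul_of_nonneg_left (by linarith) hm0.le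
    linarith
  have hρ1 : m / c ≤ 1 := by rw [div_le_one hc0]; exact hmc
  -- the two cases
  by_cases hcase : p = 2 ∧ j = 2
  · obtain ⟨hp', hj'⟩ := hcase
    have ha2 : a = 2 * Real.log 2 := by rw [ha, hp', hj']; norm_num
    have hKc2 : K = c / 2 := by rw [hKc, hp']; norm_num; ring
    rcases le_or_gt (c / 2) m with hmK | hmK
    · apply hlarge
      rw [ha2]
      have : 1 / 2 ≤ m / c := by rw [le_div_iff₀ hc0]; linarith
      exact ineq_two this hρ1
    · -- small cosets: two classes
      set B1 := B.filter (fun y => x⁻¹ * y ∈ C') with hB1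
      set B2 := B.filter (fun y => ¬ x⁻¹ * y ∈ C') with hB2
      have hsplit : ∀ f : G → ℝ, ∑ y ∈ B, f y = ∑ y ∈ B1, f y + ∑ y ∈ B2, f y := fun f =>
        (Finset.sum_filter_add_sum_filter_not B (fun y => x⁻¹ * y ∈ C') f).symm
      set b1 : ℝ := (cnt A C' x : ℝ) with hb1
      have hb1c : (B1.card : ℝ) = b1 := by
        rw [hb1]
        unfold cnt
        congr 2
        ext y
        simp only [hB1, hB, Finset.mem_filter]
        constructor
        · rintro ⟨⟨p1, _⟩, p3⟩; exact ⟨p1, p3⟩
        · rintro ⟨p1, p3⟩; exact ⟨⟨p1, hC' p3⟩, p3⟩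
      set b2 : ℝ := (B2.card : ℝ) with hb2
      have hb12 : b1 + b2 = m := by
        have := hsplit (fun _ => 1)
        simp only [Finset.sum_const, nsmul_eq_mul, mul_one] at this
        rw [hBm, hb1c] at this
        linarith
      have hb1pos : 0 < b1 := by rw [hb1]; exact_mod_cast cnt_pos A C' hx
      have hcnt1 : ∀ y ∈ B1, (cnt A C' y : ℝ) = b1 := by
        intro y hy
        rw [hb1, cnt_congr A C' (Finset.mem_filter.1 hy).2]
      have hB2B : ∀ y ∈ B2, y ∈ B := fun y hy => (Finset.mem_filter.1 hy).1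
      have hcnt2 : ∀ y ∈ B2, (cnt A C' y : ℝ) ≤ b2 := by
        intro y hy
        rw [hb2]
        unfold cnt
        have : (A.filter fun z => y⁻¹ * z ∈ C').card ≤ B2.card := by
          refine Finset.card_le_card fun z hz => ?_
          simp only [Finset.mem_filter] at hz
          simp only [hB2, hB, Finset.mem_filter] at hy ⊢
          refine ⟨⟨hz.1, ?_⟩, fun hcon => hy.2 ?_⟩
          · have : x⁻¹ * z = (x⁻¹ * y) * (y⁻¹ * z) := by group
            rw [this]; exact C.mul_mem hy.1.2 (hC' hz.2)
          · have : x⁻¹ * y = (x⁻¹ * z) * (y⁻¹ * z)⁻¹ := by group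
            rw [this]; exact C'.mul_mem hcon (C'.inv_mem hz.2)
        exact_mod_cast this
      rcases Nat.eq_zero_or_pos B2.card with h0 | h0
      · -- one class
        have hb20 : b2 = 0 := by rw [hb2, h0]; norm_num
        have hB2e : B2 = ∅ := Finset.card_eq_zero.1 h0
        refine Finset.sum_nonneg fun y hy => ?_
        have hyB1 : y ∈ B1 := by
          by_contra hcon
          have : y ∈ B2 := Finset.mem_filter.2 ⟨hy, fun h' => hcon (Finset.mem_filter.2 ⟨hy, h'⟩)⟩
          rw [hB2e] at this
          exact absurd this (Finset.notMem_empty y)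
        have e3 := hcnt1 y hyB1
        have e4 : m - (cnt A C' y : ℝ) = 0 := by rw [e3]; linarith
        rw [e4, mul_zero, sub_zero, sub_nonneg]
        have := hHC'cnt y hy
        have h5 : Real.log (cnt A C' y) ≤ Real.log m := Real.log_le_log (hposC' y hy) (hleC' y hy)
        linarith
      · have hb2pos : 0 < b2 := by rw [hb2]; exact_mod_cast h0
        -- sum of the inverses in the second class
        have hinv2 : ∑ y ∈ B2, 1 / (cnt A C' y : ℝ) ≤ 1 := by
          have h6 := hsplit (fun y => 1 / (cnt A C' y : ℝ))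
          have h7 : ∑ y ∈ B1, 1 / (cnt A C' y : ℝ) = 1 := by
            rw [Finset.sum_congr rfl (fun y hy => by rw [hcnt1 y hy]), Finset.sum_const,
              nsmul_eq_mul, hb1c]
            field_simp
          rw [h6, h7, hp'] at hinv
          push_cast at hinv
          linarith
        have hsum2 : b2 ^ 2 ≤ ∑ y ∈ B2, (cnt A C' y : ℝ) := by
          have := sum_cnt_ge B2 (fun y => (cnt A C' y : ℝ)) (fun y hy => hposC' y (hB2B y hy)) 1
            hinv2 b2
          rw [← hb2] at this
          nlinarith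
        have hsumB : ∑ y ∈ B, (m - (cnt A C' y : ℝ)) ≤ 2 * (b1 * b2) := by
          rw [hsplit, Finset.sum_congr rfl (fun y hy => by rw [hcnt1 y hy]), Finset.sum_const,
            nsmul_eq_mul, hb1c, Finset.sum_sub_distrib, Finset.sum_const, nsmul_eq_mul, ← hb2]
          rw [← hb12]
          nlinarith
        have hent := entropy_two hb1pos hb2pos
        rw [hb12] at hent
        have hlow : b1 * (Real.log m - Real.log b1) + b2 * (Real.log m - Real.log b2) ≤
            ∑ y ∈ B, (Real.log m - Real.log (cnt A H y)) := by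
          rw [hsplit]
          refine add_le_add ?_ ?_
          · rw [← hb1c, ← nsmul_eq_mul, ← Finset.sum_const, hb1c]
            refine Finset.sum_le_sum fun y hy => ?_
            have hyB := (Finset.mem_filter.1 hy).1
            have := hHC'cnt y hyB
            rw [hcnt1 y hy] at this
            linarith
          · rw [hb2, ← nsmul_eq_mul, ← Finset.sum_const, ← hb2]
            refine Finset.sum_le_sum fun y hy => ?_
            have hyB := hB2B y hy
            have h8 := hHC'cnt y hyB
            have h9 := Real.log_le_log (hposC' y hyB) (hcnt2 y hy)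
            linarith
        rw [Finset.sum_sub_distrib, ← Finset.mul_sum]
        have h10 : a / K * ∑ y ∈ B, (m - (cnt A C' y : ℝ)) ≤ a / m * (2 * (b1 * b2)) := by
          have h11 : a / K ≤ a / m := div_le_div_of_nonneg_left ha0.le hm0 (by rw [hKc2]; linarith)
          have h12 : 0 ≤ ∑ y ∈ B, (m - (cnt A C' y : ℝ)) :=
            Finset.sum_nonneg fun y hy => sub_nonneg.2 (hleC' y hy)
          exact mul_le_mul h11 hsumB h12 (div_nonneg ha0.le hm0.le)
        have h13 : a / m * (2 * (b1 * b2)) = 4 * Real.log 2 * (b1 * b2) / m := by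
          rw [ha2]; ring
        linarith
  · -- `a ≥ 2`
    have ha2 : 2 ≤ a := by
      rcases Nat.lt_or_ge 2 p with hp3 | hp3
      · have h3 : (1 : ℝ) ≤ Real.log 3 := by
          rw [Real.le_log_iff_exp_le (by norm_num)]
          have := Real.exp_one_lt_d9
          linarith
        have h4 : Real.log 3 ≤ Real.log p := Real.log_le_log (by norm_num) (by exact_mod_cast hp3)
        have h5 : (2 : ℝ) ≤ j := by exact_mod_cast hj2
        rw [ha]
        nlinarith
      · have hp' : p = 2 := by omega
        have hj3 : 3 ≤ j := by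
          by_contra hcon
          exact hcase ⟨hp', by omega⟩
        have h5 : (3 : ℝ) ≤ j := by exact_mod_cast hj3
        have h6 := Real.log_two_gt_d9
        rw [ha, hp']
        push_cast
        nlinarith
    rcases le_or_gt (m * a) K with hmK | hmK
    · refine Finset.sum_nonneg fun y hy => ?_
      have hb := hposC' y hy
      have h1 : 1 - (cnt A C' y : ℝ) / m ≤ Real.log m - Real.log (cnt A C' y) := by
        have h2 := Real.log_le_sub_one_of_pos (div_pos hb hm0)
        rw [Real.log_div hb.ne' hm0.ne'] at h2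
        linarith
      have h3 := hHC'cnt y hy
      have h4 : a / K * (m - cnt A C' y) ≤ 1 / m * (m - cnt A C' y) := by
        refine mul_le_mul_of_nonneg_right ?_ (sub_nonneg.2 (hleC' y hy))
        rw [div_le_div_iff₀ hK0 hm0]
        linarith
      have h5 : 1 / m * (m - (cnt A C' y : ℝ)) = 1 - (cnt A C' y : ℝ) / m := by
        field_simp
      linarith
    · apply hlarge
      have hu1 : 1 / (p : ℝ) ≤ 1 / 2 := one_div_le_one_div_of_le (by norm_num) hp2
      have hu2 : 0 < 1 / (p : ℝ) := by positivity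
      refine ineq_a (u := 1 - 1 / p) ha2 (by linarith) (by linarith) ?_ hρ1
      rw [div_le_div_iff₀ ha0 hc0]
      rw [hKc] at hmK
      linarith

end

end Pool.Agent.L7h51.SSE
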