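import Pool.Agent.L7h51.SSE.Greedy

set_option autoImplicit false
set_option linter.unusedSectionVars false
set_option maxHeartbeats 4000000

/-! Weights on the translations of a finite group. -/

namespace Pool.Agent.L7h51.SSE

open Finset
open scoped Classical

noncomputable section

variable {G : Type} [Group G] [Fintype G]

/-- The expansion of `A` for the weight `μ` on the translations. -/
def wexp (μ : G → ℝ) (A : Finset G) : ℝ :=
  (∑ s, μ s * ((A.filter fun x => x * s ∉ A).card : ℝ)) / A.card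

/-- The logarithm of the inverse density of `A`. -/
def lsize (A : Finset G) : ℝ := Real.log (Fintype.card G / A.card)

/-- The elements of a subgroup. -/
def carrier (W : Subgroup G) : Finset G := univ.filter fun x => x ∈ W

/-- `μ` is, off the identity, a nonnegative combination of uniform distributions on members of `𝓕`
and of uniform distributions on the sets of the generators of cyclic members of `𝓕` of prime
power order. -/
def Admissible (𝓕 : Set (Subgroup G)) (μ : G → ℝ) : Prop :=
  ∃ (ι κ : Type) (_ : Fintype ι) (_ : Fintype κ) (D : ι → Subgroup G) (c : ι → ℝ)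
    (C : κ → Subgroup G) (e : κ → ℝ),
    (∀ i, D i ∈ 𝓕 ∧ 0 ≤ c i) ∧
    (∀ k, C k ∈ 𝓕 ∧ 0 ≤ e k ∧ IsCyclic (C k) ∧ IsPrimePow (Nat.card (C k))) ∧
    ∀ s : G, s ≠ 1 → μ s = ∑ i, c i * (if s ∈ D i then 1 / (Nat.card (D i) : ℝ) else 0) +
      ∑ k, e k * (if Subgroup.zpowers s = C k then
        1 / (Nat.card {t : G // Subgroup.zpowers t = C k} : ℝ) else 0)

lemma leave_add_stay (A : Finset G) (s : G) :
    ((A.filter fun x => x * s ∉ A).card : ℝ) = A.card - ((A.filter fun x => x * s ∈ A).card : ℝ) := by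
  have := Finset.card_filter_add_card_filter_not (s := A) (fun x => x * s ∈ A)
  have h2 : ((A.filter fun x => x * s ∈ A).card : ℝ) + (A.filter fun x => x * s ∉ A).card = A.card := by
    exact_mod_cast this
  linarith

lemma sum_stay (A : Finset G) (D : Subgroup G) :
    ∑ s : G, (if s ∈ D then ((A.filter fun x => x * s ∈ A).card : ℝ) else 0) = ∑ x ∈ A, (cnt A D x : ℝ) := by
  have h1 : ∀ s : G, (if s ∈ D then ((A.filter fun x => x * s ∈ A).card : ℝ) else 0)
      = ∑ x ∈ A, if s ∈ D ∧ x * s ∈ A then (1 : ℝ) else 0 := by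
    intro s
    by_cases hs : s ∈ D
    · simp only [hs, if_true, true_and]
      rw [← Finset.sum_filter, Finset.sum_const, nsmul_eq_mul, mul_one]
    · simp [hs]
  rw [Finset.sum_congr rfl fun s _ => h1 s, Finset.sum_comm]
  refine Finset.sum_congr rfl fun x _ => ?_
  rw [← Finset.sum_filter, Finset.sum_const, nsmul_eq_mul, mul_one]
  congr 1
  unfold cnt
  refine Finset.card_bij (fun s _ => x * s) ?_ ?_ ?_
  · intro s hs
    simp only [Finset.mem_filter, Finset.mem_univ, true_and] at hs ⊢
    refine ⟨hs.2, by simpa using hs.1⟩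
  · intro s _ t _ h
    simpa using h
  · intro z hz
    simp only [Finset.mem_filter] at hz
    refine ⟨x⁻¹ * z, ?_, by group⟩
    simp only [Finset.mem_filter, Finset.mem_univ, true_and]
    refine ⟨hz.2, ?_⟩
    have : x * (x⁻¹ * z) = z := by group
    rw [this]; exact hz.1

lemma sum_ind (D : Subgroup G) : ∑ s : G, (if s ∈ D then (1 : ℝ) else 0) = Nat.card D := by
  rw [← Finset.sum_filter, Finset.sum_const, nsmul_eq_mul, mul_one, Nat.card_eq_fintype_card,
    Fintype.card_subtype]

lemma sum_leave (A : Finset G) (D : Subgroup G) :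
    ∑ s : G, (if s ∈ D then ((A.filter fun x => x * s ∉ A).card : ℝ) else 0) =
      (Nat.card D : ℝ) * A.card - ∑ x ∈ A, (cnt A D x : ℝ) := by
  rw [← sum_stay, ← sum_ind, Finset.sum_mul, ← Finset.sum_sub_distrib]
  refine Finset.sum_congr rfl fun s _ => ?_
  by_cases hs : s ∈ D
  · simp only [hs, if_true, one_mul]; exact leave_add_stay A s
  · simp [hs]

lemma exists_genTest (C : Subgroup G) (hC : IsCyclic C) (h : IsPrimePow (Nat.card C)) :
    ∃ (C' : Subgroup G) (p : ℕ), GenTest C C' p := by
  obtain ⟨p, n, hp, hn, hpn⟩ := h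
  have hp' : p.Prime := hp.nat_prime
  obtain ⟨g, hg⟩ := hC.exists_generator
  have hgC : Subgroup.zpowers (g : G) = C := by
    apply le_antisymm
    · rw [Subgroup.zpowers_le]; exact g.2
    · intro x hx
      obtain ⟨k, hk⟩ := Subgroup.mem_zpowers_iff.1 (hg ⟨x, hx⟩)
      rw [Subgroup.mem_zpowers_iff]
      refine ⟨k, ?_⟩
      have := congrArg (fun y : C => (y : G)) hk
      simpa using this
  have hord : orderOf (g : G) = p ^ n := by
    rw [← Nat.card_zpowers, hgC, hpn]
  have hordp : orderOf ((g : G) ^ p) = p ^ (n - 1) := by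
    rw [orderOf_pow, hord]
    have : Nat.gcd (p ^ n) p = p := Nat.gcd_eq_right (dvd_pow_self p (by omega))
    rw [this]
    obtain ⟨m, rfl⟩ : ∃ m, n = m + 1 := ⟨n - 1, by omega⟩
    rw [pow_succ, Nat.mul_div_cancel _ hp'.pos]
    rfl
  refine ⟨Subgroup.zpowers ((g : G) ^ p), p, hp'.two_le, ?_, ?_, ?_⟩
  · rw [Subgroup.zpowers_le]; exact C.pow_mem g.2 p
  · rw [Nat.card_zpowers, hordp, ← hpn]
    obtain ⟨m, rfl⟩ : ∃ m, n = m + 1 := ⟨n - 1, by omega⟩
    rw [pow_succ]
    simp [mul_comm]
  · intro H hHC hne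
    constructor
    · intro x hx
      have hxC := hHC hx
      rw [← hgC] at hxC
      obtain ⟨k, hk⟩ := (isOfFinOrder_of_finite (g : G)).mem_zpowers_iff_mem_range_orderOf.1 hxC |> (by
        intro h
        simpa [Finset.mem_image] using h : _ → ∃ k : ℕ, k < orderOf (g : G) ∧ (g : G) ^ k = x)
      obtain ⟨_, hkx⟩ := hk
      by_cases hpk : p ∣ k
      · obtain ⟨l, rfl⟩ := hpk
        rw [← hkx, pow_mul]
        exact Subgroup.pow_mem _ (Subgroup.mem_zpowers _) l
      · exfalso
        apply hne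
        apply le_antisymm hHC
        have hcop : (orderOf (g : G)).Coprime k := by
          rw [hord]
          exact Nat.Coprime.pow_left n ((Nat.Prime.coprime_iff_not_dvd hp').2 hpk)
        have h1 : orderOf x = orderOf (g : G) := by
          rw [← hkx]; exact Nat.Coprime.orderOf_pow hcop
        have h2 : Subgroup.zpowers x = C := by
          apply SetLike.coe_injective
          refine Set.eq_of_subset_of_ncard_le ?_ ?_ (Set.toFinite _)
          · have : Subgroup.zpowers x ≤ C := by
              rw [Subgroup.zpowers_le]; exact hHC hx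
            exact this
          · have e1 : (C : Set G).ncard = Nat.card C := rfl
            have e2 : (Subgroup.zpowers x : Set G).ncard = Nat.card (Subgroup.zpowers x) := rfl
            rw [e1, e2, Nat.card_zpowers, h1, hord, hpn]
        rw [← h2, Subgroup.zpowers_le]
        exact hx
    · have hdvd : Nat.card H ∣ p ^ n := by
        rw [hpn]; exact Subgroup.card_dvd_of_le hHC
      obtain ⟨i, hi, hHi⟩ := (Nat.dvd_prime_pow hp').1 hdvd
      refine ⟨n - i, ?_, ?_⟩
      · by_contra hcon
        have hin : i = n := by omega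
        apply hne
        apply SetLike.coe_injective
        refine Set.eq_of_subset_of_ncard_le hHC ?_ (Set.toFinite _)
        have e1 : (C : Set G).ncard = Nat.card C := rfl
        have e2 : (H : Set G).ncard = Nat.card H := rfl
        rw [e1, e2, hHi, hin, hpn]
      · rw [hHi, ← hpn, ← pow_add]
        congr 1
        omega

lemma genTest_gen {C C' : Subgroup G} {p : ℕ} (h : GenTest C C' p) (t : G) :
    Subgroup.zpowers t = C ↔ t ∈ C ∧ t ∉ C' := by
  constructor
  · intro ht
    refine ⟨by rw [← ht]; exact Subgroup.mem_zpowers t, fun hcon => ?_⟩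
    have h1 : C ≤ C' := by rw [← ht, Subgroup.zpowers_le]; exact hcon
    have h2 : C = C' := le_antisymm h1 h.le
    have h3 := h.card
    rw [← h2] at h3
    have h4 : 0 < Nat.card C := Nat.card_pos
    have h5 := h.two_le
    nlinarith
  · rintro ⟨h1, h2⟩
    by_contra hcon
    have h3 : Subgroup.zpowers t ≤ C := by rw [Subgroup.zpowers_le]; exact h1
    exact h2 ((h.sub _ h3 hcon).1 (Subgroup.mem_zpowers t))

lemma sum_gen (A : Finset G) {C C' : Subgroup G} {p : ℕ} (h : GenTest C C' p) :
    ∑ s : G, (if Subgroup.zpowers s = C then ((A.filter fun x => x * s ∉ A).card : ℝ) else 0) =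
      ((Nat.card C : ℝ) - Nat.card C') * A.card - ∑ x ∈ A, ((cnt A C x : ℝ) - cnt A C' x) := by
  have h1 : ∀ s : G, (if Subgroup.zpowers s = C then ((A.filter fun x => x * s ∉ A).card : ℝ) else 0)
      = (if s ∈ C then ((A.filter fun x => x * s ∉ A).card : ℝ) else 0) -
        (if s ∈ C' then ((A.filter fun x => x * s ∉ A).card : ℝ) else 0) := by
    intro s
    have h2 := genTest_gen h s
    by_cases hs : s ∈ C <;> by_cases hs' : s ∈ C'
    · rw [if_neg (fun h' => (h2.1 h').2 hs'), if_pos hs, if_pos hs', sub_self]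
    · rw [if_pos (h2.2 ⟨hs, hs'⟩), if_pos hs, if_neg hs', sub_zero]
    · exact absurd (h.le hs') hs
    · rw [if_neg (fun h' => hs (h2.1 h').1), if_neg hs, if_neg hs', sub_zero]
  rw [Finset.sum_congr rfl fun s _ => h1 s, Finset.sum_sub_distrib, sum_leave, sum_leave,
    Finset.sum_sub_distrib]
  ring

lemma card_gen {C C' : Subgroup G} {p : ℕ} (h : GenTest C C' p) :
    (Nat.card {t : G // Subgroup.zpowers t = C} : ℝ) = (Nat.card C : ℝ) - Nat.card C' := by
  have h1 : (Nat.card {t : G // Subgroup.zpowers t = C} : ℝ) =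
      ∑ s : G, (if Subgroup.zpowers s = C then (1 : ℝ) else 0) := by
    rw [← Finset.sum_filter, Finset.sum_const, nsmul_eq_mul, mul_one, Nat.card_eq_fintype_card,
      Fintype.card_subtype]
  rw [h1, ← sum_ind C, ← sum_ind C', ← Finset.sum_sub_distrib]
  refine Finset.sum_congr rfl fun s _ => ?_
  have h2 := genTest_gen h s
  by_cases hs : s ∈ C <;> by_cases hs' : s ∈ C'
  · rw [if_neg (fun h' => (h2.1 h').2 hs'), if_pos hs, if_pos hs', sub_self]
  · rw [if_pos (h2.2 ⟨hs, hs'⟩), if_pos hs, if_neg hs', sub_zero]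
  · exact absurd (h.le hs') hs
  · rw [if_neg (fun h' => hs (h2.1 h').1), if_neg hs, if_neg hs', sub_zero]

lemma genTest_pos {C C' : Subgroup G} {p : ℕ} (h : GenTest C C' p) :
    0 < (Nat.card C : ℝ) - Nat.card C' := by
  have h1 := card_pos' C'
  have h2 : (2 : ℝ) ≤ p := by exact_mod_cast h.two_le
  have h3 : (Nat.card C : ℝ) = p * Nat.card C' := by rw [h.card]; push_cast; rfl
  rw [h3]; nlinarith

lemma genTest_ne_bot {C C' : Subgroup G} {p : ℕ} (h : GenTest C C' p) : ¬ C ≤ ⊥ := by
  intro hcon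
  have h1 : C = ⊥ := le_bot_iff.1 hcon
  have h2 := h.card
  rw [h1, Subgroup.card_bot] at h2
  have h3 := h.two_le
  have h4 : 0 < Nat.card C' := Nat.card_pos
  nlinarith

section

variable {ι κ : Type} [Fintype ι] [Fintype κ] (D : ι → Subgroup G) (c : ι → ℝ)
  (C C' : κ → Subgroup G) (e : κ → ℝ)

lemma wexp_eq (p : κ → ℕ) (hg : ∀ k, GenTest (C k) (C' k) (p k)) (μ : G → ℝ)
    (hμ : ∀ s : G, s ≠ 1 → μ s = ∑ i, c i * (if s ∈ D i then 1 / (Nat.card (D i) : ℝ) else 0) +
      ∑ k, e k * (if Subgroup.zpowers s = C k then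
        1 / (Nat.card {t : G // Subgroup.zpowers t = C k} : ℝ) else 0))
    (A : Finset G) (hA : A.Nonempty) :
    wexp μ A = O D c C e ⊥ - S D c C C' e A ⊥ := by
  have hA0 : (0 : ℝ) < A.card := by exact_mod_cast hA.card_pos
  have h1 : ∑ s, μ s * ((A.filter fun x => x * s ∉ A).card : ℝ) =
      ∑ s, (∑ i, c i * (if s ∈ D i then 1 / (Nat.card (D i) : ℝ) else 0) +
      ∑ k, e k * (if Subgroup.zpowers s = C k then
        1 / (Nat.card {t : G // Subgroup.zpowers t = C k} : ℝ) else 0)) *
        ((A.filter fun x => x * s ∉ A).card : ℝ) := by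
    refine Finset.sum_congr rfl fun s _ => ?_
    by_cases hs : s = 1
    · subst hs
      have : (A.filter fun x => x * 1 ∉ A) = ∅ := by
        rw [Finset.filter_eq_empty_iff]
        intro x hx; simpa using hx
      rw [this]; simp
    · rw [hμ s hs]
  have h2 : ∑ s, (∑ i, c i * (if s ∈ D i then 1 / (Nat.card (D i) : ℝ) else 0) +
      ∑ k, e k * (if Subgroup.zpowers s = C k then
        1 / (Nat.card {t : G // Subgroup.zpowers t = C k} : ℝ) else 0)) *
        ((A.filter fun x => x * s ∉ A).card : ℝ) =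
      ∑ i, c i / (Nat.card (D i) : ℝ) *
        (∑ s : G, (if s ∈ D i then ((A.filter fun x => x * s ∉ A).card : ℝ) else 0)) +
      ∑ k, e k / (Nat.card {t : G // Subgroup.zpowers t = C k} : ℝ) *
        (∑ s : G, (if Subgroup.zpowers s = C k then ((A.filter fun x => x * s ∉ A).card : ℝ) else 0)) := by
    simp_rw [add_mul, Finset.sum_add_distrib, Finset.sum_mul, Finset.mul_sum]
    rw [Finset.sum_comm]
    congr 1
    · refine Finset.sum_congr rfl fun i _ => Finset.sum_congr rfl fun s _ => ?_
      split_ifs <;> ring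
    · rw [Finset.sum_comm]
      refine Finset.sum_congr rfl fun i _ => Finset.sum_congr rfl fun s _ => ?_
      split_ifs <;> ring
  unfold wexp
  rw [h1, h2, add_div, Finset.sum_div, Finset.sum_div]
  unfold O S
  have h3 : ∀ i, c i / (Nat.card (D i) : ℝ) *
        (∑ s : G, (if s ∈ D i then ((A.filter fun x => x * s ∉ A).card : ℝ) else 0)) / A.card =
      c i * (((Nat.card (D i) : ℝ) - Nat.card (D i ⊓ ⊥ : Subgroup G)) / Nat.card (D i)) -
      c i * (ret A (D i) (D i ⊓ ⊥) / Nat.card (D i)) := by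
    intro i
    rw [sum_leave]
    unfold ret
    have hDi := card_pos' (D i)
    have e1 : ∑ x ∈ A, ((cnt A (D i) x : ℝ) - cnt A (D i ⊓ ⊥) x) = ∑ x ∈ A, (cnt A (D i) x : ℝ) - A.card := by
      rw [Finset.sum_sub_distrib]
      congr 1
      have : ∀ x ∈ A, (cnt A (D i ⊓ ⊥) x : ℝ) = 1 := by
        intro x hx
        rw [inf_bot_eq, cnt_bot A hx]; norm_num
      rw [Finset.sum_congr rfl this]; simp
    rw [e1, inf_bot_eq, Subgroup.card_bot]
    field_simp
    push_cast
    ring
  have h4 : ∀ k, e k / (Nat.card {t : G // Subgroup.zpowers t = C k} : ℝ) *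
        (∑ s : G, (if Subgroup.zpowers s = C k then ((A.filter fun x => x * s ∉ A).card : ℝ) else 0))
        / A.card =
      (if C k ≤ ⊥ then 0 else e k) - (if C k ≤ ⊥ then 0 else e k * (ret A (C k) (C' k) /
        ((Nat.card (C k) : ℝ) - Nat.card (C' k)))) := by
    intro k
    rw [sum_gen A (hg k), card_gen (hg k), if_neg (genTest_ne_bot (hg k)), if_neg (genTest_ne_bot (hg k))]
    have hK := genTest_pos (hg k)
    unfold ret
    generalize hKd : (Nat.card (C k) : ℝ) - Nat.card (C' k) = K at hK ⊢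
    field_simp
  rw [Finset.sum_congr rfl fun i _ => h3 i, Finset.sum_congr rfl fun k _ => h4 k,
    Finset.sum_sub_distrib, Finset.sum_sub_distrib]
  ring

lemma carrier_nonempty (W : Subgroup G) : (carrier W).Nonempty := ⟨1, by simp [carrier, W.one_mem]⟩

lemma card_carrier (W : Subgroup G) : (carrier W).card = Nat.card W := by
  unfold carrier
  rw [Nat.card_eq_fintype_card, Fintype.card_subtype]

lemma cnt_carrier (W E : Subgroup G) {x : G} (hx : x ∈ carrier W) :
    cnt (carrier W) E x = Nat.card (E ⊓ W : Subgroup G) := by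
  have hxW : x ∈ W := by simpa [carrier] using hx
  unfold cnt carrier
  rw [Nat.card_eq_fintype_card, Fintype.card_subtype]
  refine Finset.card_bij (fun z _ => x⁻¹ * z) ?_ ?_ ?_
  · intro z hz
    simp only [Finset.mem_filter, Finset.mem_univ, true_and, Subgroup.mem_inf] at hz ⊢
    exact ⟨hz.2, W.mul_mem (W.inv_mem hxW) hz.1⟩
  · intro s _ t _ h
    simpa using h
  · intro z hz
    simp only [Finset.mem_filter, Finset.mem_univ, true_and, Subgroup.mem_inf] at hz
    refine ⟨x * z, ?_, by group⟩
    simp only [Finset.mem_filter, Finset.mem_univ, true_and]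
    refine ⟨W.mul_mem hxW hz.2, by simpa using hz.1⟩

lemma wexp_carrier (p : κ → ℕ) (hg : ∀ k, GenTest (C k) (C' k) (p k)) (μ : G → ℝ)
    (hμ : ∀ s : G, s ≠ 1 → μ s = ∑ i, c i * (if s ∈ D i then 1 / (Nat.card (D i) : ℝ) else 0) +
      ∑ k, e k * (if Subgroup.zpowers s = C k then
        1 / (Nat.card {t : G // Subgroup.zpowers t = C k} : ℝ) else 0))
    (W : Subgroup G) : wexp μ (carrier W) = O D c C e W := by
  rw [wexp_eq D c C C' e p hg μ hμ _ (carrier_nonempty W)]
  have hW0 : (0 : ℝ) < (carrier W).card := by exact_mod_cast (carrier_nonempty W).card_pos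
  have hret : ∀ E H : Subgroup G, ret (carrier W) E H =
      (Nat.card (E ⊓ W : Subgroup G) : ℝ) - Nat.card (H ⊓ W : Subgroup G) := by
    intro E H
    unfold ret
    have : ∀ x ∈ carrier W, ((cnt (carrier W) E x : ℝ) - cnt (carrier W) H x) =
        (Nat.card (E ⊓ W : Subgroup G) : ℝ) - Nat.card (H ⊓ W : Subgroup G) := by
      intro x hx
      rw [cnt_carrier W E hx, cnt_carrier W H hx]
    rw [Finset.sum_congr rfl this, Finset.sum_const, nsmul_eq_mul]
    field_simp
  unfold O S
  have h1 : ∀ i, c i * (((Nat.card (D i) : ℝ) - Nat.card (D i ⊓ ⊥ : Subgroup G)) / Nat.card (D i)) -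
      c i * (ret (carrier W) (D i) (D i ⊓ ⊥) / Nat.card (D i)) =
      c i * (((Nat.card (D i) : ℝ) - Nat.card (D i ⊓ W : Subgroup G)) / Nat.card (D i)) := by
    intro i
    rw [hret, inf_bot_eq, bot_inf_eq]
    ring
  have h2 : ∀ k, (if C k ≤ ⊥ then 0 else e k) - (if C k ≤ ⊥ then 0 else e k *
      (ret (carrier W) (C k) (C' k) / ((Nat.card (C k) : ℝ) - Nat.card (C' k)))) =
      if C k ≤ W then 0 else e k := by
    intro k
    rw [if_neg (genTest_ne_bot (hg k)), if_neg (genTest_ne_bot (hg k)), hret]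
    have hK := genTest_pos (hg k)
    by_cases h : C k ≤ W
    · rw [if_pos h, inf_eq_left.2 h, inf_eq_left.2 ((hg k).le.trans h), div_self hK.ne']
      ring
    · rw [if_neg h]
      have h3 : C k ⊓ W ≤ C' k := ((hg k).sub (C k ⊓ W) inf_le_left
        (fun h' => h (inf_eq_left.1 h'))).1
      have h4 : C k ⊓ W = C' k ⊓ W :=
        le_antisymm (le_inf h3 inf_le_right) (inf_le_inf_right W (hg k).le)
      rw [h4]
      simp
  have h3 := Finset.sum_congr rfl fun i (_ : i ∈ (univ : Finset ι)) => h1 i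
  have h4 := Finset.sum_congr rfl fun k (_ : k ∈ (univ : Finset κ)) => h2 k
  rw [Finset.sum_sub_distrib] at h3 h4
  linarith

end

end

end Pool.Agent.L7h51.SSE
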